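import Pool.Agent.X65.MS.Build
import Pool.Agent.X249.Kit

/-!
# The algorithm for trees runs in polynomial time
-/

set_option autoImplicit false

namespace Pool.Agent.X65.MS

open Pool.Agent.NPC Pool.Agent.NPC.R671 Pool.Agent.H671R2.Ord Pool.Agent.X249
open Pool.Agent.X65.RW (minv)

attribute [local irreducible] me

section

variable {α : Type} [TEnc α]

theorem poly_minv {R l : α → List ℕ} (hR : NPC.Poly R) (hl : NPC.Poly l) :
    NPC.Poly (fun x => minv (R x).length (l x)) := by
  have h1 : NPC.Poly (fun x => List.range (R x).length) := NPC.Poly.range_length hR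
  have h2 : NPC.Poly (fun x => (List.range (R x).length).filter fun v => decide (v ∈ l x)) :=
    NPC.Poly.filter (p := fun x v => decide (v ∈ l x)) h1 (by fun_prop)
  unfold minv
  exact NPC.Poly.optGetD (NPC.Poly.head? h2) (NPC.Poly.length hR)

theorem poly_look {M : α → ℕ} {t : α → Tb} {q : α → ℕ × ℕ × ℕ} (hM : NPC.Poly M)
    (ht : NPC.Poly t) (hq : NPC.Poly q) : NPC.Poly (fun x => look (M x) (t x) (q x)) := by
  unfold look
  fun_prop

attribute [local fun_prop] NPC.Poly.range_length poly_look poly_minv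

theorem poly_keys {R S : α → List ℕ} (hR : NPC.Poly R) (hS : NPC.Poly S) :
    NPC.Poly (fun x => keys (R x).length (S x).length) := by
  unfold keys
  fun_prop

theorem poly_opts {S : α → List ℕ} {t : α → Tb} {v p x c : α → ℕ} (hS : NPC.Poly S)
    (ht : NPC.Poly t) (hv : NPC.Poly v) (hp : NPC.Poly p) (hx : NPC.Poly x) (hc : NPC.Poly c) :
    NPC.Poly (fun a => opts (S a).length (t a) (v a) (p a) (x a) (c a)) := by
  unfold opts
  fun_prop

attribute [local fun_prop] poly_keys poly_opts

theorem poly_nxt {R S : α → List ℕ} {t : α → Tb} {e : α → ℕ × ℕ} (hR : NPC.Poly R)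
    (hS : NPC.Poly S) (ht : NPC.Poly t) (he : NPC.Poly e) :
    NPC.Poly (fun x => nxt (R x).length (S x).length (t x) (e x)) := by
  unfold nxt
  fun_prop

theorem poly_ini {R S : α → List ℕ} (hR : NPC.Poly R) (hS : NPC.Poly S) :
    NPC.Poly (fun x => ini (R x).length (S x).length) := by
  unfold ini
  fun_prop

end

theorem look_le {M : ℕ} {t : Tb} (h : ∀ e ∈ t, e.2 ≤ M) (q : ℕ × ℕ × ℕ) : look M t q ≤ M := by
  unfold look
  cases hl : ((t.filter fun e => decide (e.1 = q)).map fun e => e.2) with
  | nil => simp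
  | cons v l =>
    have h1 : v ∈ ((t.filter fun e => decide (e.1 = q)).map fun e => e.2) := by
      rw [hl]; exact List.mem_cons_self
    rw [List.mem_map] at h1
    obtain ⟨e, he, hv⟩ := h1
    simp only [List.head?_cons, Option.getD_some]
    rw [← hv]
    exact h e (List.mem_filter.1 he).1

/-- bounded tables -/
def Bd (n M : ℕ) (t : Tb) : Prop := t.length = (keys n M).length ∧
  ∀ e ∈ t, e.1 ∈ keys n M ∧ e.2 ≤ M

theorem bd_ini (n M : ℕ) : Bd n M (ini n M) := by
  unfold ini
  refine ⟨by simp, ?_⟩
  intro e he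
  rw [List.mem_map] at he
  obtain ⟨q, hq, rfl⟩ := he
  refine ⟨hq, ?_⟩
  simp only
  split_ifs <;> omega

theorem bd_nxt {n M : ℕ} {t : Tb} (h : Bd n M t) (e : ℕ × ℕ) : Bd n M (nxt n M t e) := by
  unfold nxt
  refine ⟨by simp, ?_⟩
  intro f hf
  rw [List.mem_map] at hf
  obtain ⟨q, hq, rfl⟩ := hf
  refine ⟨hq, ?_⟩
  simp only
  split_ifs
  · exact minv_le_bound _ _
  · exact look_le (fun e he => (h.2 e he).2) q

theorem bd_fold {n M : ℕ} : ∀ (es : List (ℕ × ℕ)) (t : Tb), Bd n M t →
    Bd n M (es.foldl (nxt n M) t)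
  | [], _, h => h
  | e :: es, t, h => bd_fold es _ (bd_nxt h e)

theorem length_keys (n M : ℕ) : (keys n M).length = n * (M * M) := by
  unfold keys
  rw [List.length_product, List.length_product, List.length_range, List.length_range]

theorem poly_fin_aux : NPC.Poly (fun x : List ℕ × List ℕ × List (ℕ × ℕ) =>
    fin x.1.length x.2.1.length x.2.2) := by
  unfold fin
  refine NPC.Poly.foldl (l := fun x : List ℕ × List ℕ × List (ℕ × ℕ) => x.2.2)
    (s := fun x => ini x.1.length x.2.1.length)
    (F := fun x t e => nxt x.1.length x.2.1.length t e) (by fun_prop) ?_ ?_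
    (Polynomial.X * (Polynomial.X * Polynomial.X) * (Polynomial.C 16 * Polynomial.X +
      Polynomial.C 8) + Polynomial.C 1) ?_
  · exact poly_ini (by fun_prop) (by fun_prop)
  · exact poly_nxt (by fun_prop) (by fun_prop) (by fun_prop) (by fun_prop)
  · rintro ⟨R, S, es⟩ k _
    simp only
    have h1 := bd_fold (es.take k) _ (bd_ini R.length S.length)
    set t := (es.take k).foldl (nxt R.length S.length) (ini R.length S.length) with ht
    have h3 : R.length < sz R := length_lt_sz R
    have h4 : S.length < sz S := length_lt_sz S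
    have h5 : sz (R, S, es) = sz R + (sz S + sz es + 1) + 1 := by
      simp only [sz_pair]
    have h6 : ∀ e ∈ t, sz e ≤ 16 * sz (R, S, es) + 7 := by
      rintro ⟨⟨u, x, c⟩, m⟩ he
      obtain ⟨h7, h8⟩ := h1.2 _ he
      rw [mem_keys] at h7
      have g1 := sz_nat_le_linear u
      have g2 := sz_nat_le_linear x
      have g3 := sz_nat_le_linear c
      have g4 := sz_nat_le_linear m
      have g5 : sz ((u, x, c), m) = (sz u + (sz x + sz c + 1) + 1) + sz m + 1 := by
        simp only [sz_pair]
      simp only at h8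
      omega
    have h9 := sz_le_length_mul t _ h6
    change sz t ≤ _
    refine h9.trans ?_
    simp only [Polynomial.eval_add, Polynomial.eval_mul, Polynomial.eval_C, Polynomial.eval_X]
    rw [h1.1, length_keys]
    have h10 : R.length ≤ sz (R, S, es) := by omega
    have h11 : S.length ≤ sz (R, S, es) := by omega
    have h12 : R.length * (S.length * S.length) ≤
        sz (R, S, es) * (sz (R, S, es) * sz (R, S, es)) :=
      Nat.mul_le_mul h10 (Nat.mul_le_mul h11 h11)
    have h14 : 16 * sz (R, S, es) + 7 + 1 = 16 * sz (R, S, es) + 8 := by omega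
    rw [h14]
    exact Nat.add_le_add_right (Nat.mul_le_mul_right _ h12) 1

section

variable {α : Type} [TEnc α]

theorem poly_fin {R S : α → List ℕ} {es : α → List (ℕ × ℕ)} (hR : NPC.Poly R)
    (hS : NPC.Poly S) (he : NPC.Poly es) :
    NPC.Poly (fun x => fin (R x).length (S x).length (es x)) := by
  have h := NPC.Poly.comp poly_fin_aux (NPC.Poly.pair hR (NPC.Poly.pair hS he))
  exact h

attribute [local fun_prop] poly_fin NPC.Poly.range_length poly_look poly_minv

theorem poly_ans {R S : α → List ℕ} {es : α → List (ℕ × ℕ)} (hR : NPC.Poly R)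
    (hS : NPC.Poly S) (he : NPC.Poly es) :
    NPC.Poly (fun x => ans (R x).length (S x).length (es x)) := by
  unfold ans
  refine poly_minv hS ?_
  fun_prop

theorem poly_cnd {A : α → List (List Bool)} {st : α → List (ℕ × ℕ)} (hA : NPC.Poly A)
    (hs : NPC.Poly st) : NPC.Poly (fun x => cnd (A x) (st x)) := by
  have h1 : NPC.Poly (fun x => seen (st x)) := by
    unfold seen
    fun_prop
  have h2 : NPC.Poly (fun x => List.range (A x).length) := NPC.Poly.range_length hA
  unfold cnd
  refine NPC.Poly.filter (p := fun x e => me (A x) e.1 e.2 && !decide (e.1 ∈ seen (st x)))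
    (poly_product h2 h1) ?_
  have h3 : NPC.Poly (fun x : α × (ℕ × ℕ) => seen (st x.1)) := h1.comp (NPC.Poly.fst NPC.Poly.id)
  fun_prop

theorem poly_bstep {A : α → List (List Bool)} {st : α → List (ℕ × ℕ)} (hA : NPC.Poly A)
    (hs : NPC.Poly st) : NPC.Poly (fun x => bstep (A x) (st x)) := by
  have h := poly_cnd hA hs
  unfold bstep
  refine NPC.Poly.optElim (o := fun x => (cnd (A x) (st x)).head?) (g := fun x => st x)
    (h := fun x e => e :: st x) (NPC.Poly.head? h) hs ?_
  fun_prop

end

theorem sz_bl {n : ℕ} (hn : 0 < n) {es : List (ℕ × ℕ)} (h : Bl n es) :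
    sz es ≤ n * (8 * n + 4) + 1 := by
  have h1 : es.length ≤ n := by
    have h3 := Bl.nodup h
    have h4 := Bl.lt hn h
    have h5 : (0 :: es.map Prod.fst).length ≤ (List.range n).length :=
      (h3.subperm fun u hu => List.mem_range.2 (h4 u hu)).length_le
    rw [List.length_cons, List.length_map, List.length_range] at h5
    omega
  have h2 : ∀ e ∈ es, sz e ≤ 8 * n + 3 := by
    rintro ⟨a, b⟩ he
    have h3 : a < n := Bl.lt hn h _ (List.mem_cons_of_mem _ (List.mem_map.2 ⟨_, he, rfl⟩))
    have h4 : b < n := Bl.lt hn h _ (Bl.par h _ he)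
    have g1 := sz_nat_le_linear a
    have g2 := sz_nat_le_linear b
    rw [sz_pair]
    omega
  have h3 := sz_le_length_mul es _ h2
  refine h3.trans ?_
  have h14 : 8 * n + 3 + 1 = 8 * n + 4 := by omega
  rw [h14]
  exact Nat.add_le_add_right (Nat.mul_le_mul_right _ h1) 1

theorem poly_build : NPC.Poly build := by
  unfold build
  refine NPC.Poly.foldl (l := fun A : List (List Bool) => List.range A.length)
    (s := fun _ => []) (F := fun A st _ => bstep A st) (NPC.Poly.range_length NPC.Poly.id)
    (NPC.Poly.const _) ?_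
    (Polynomial.X * (Polynomial.C 8 * Polynomial.X + Polynomial.C 4) + Polynomial.C 1) ?_
  · exact poly_bstep (by fun_prop) (by fun_prop)
  · intro A k _
    have h1 := (fold_inv ((List.range A.length).take k) [] ⟨trivial, by simp⟩ :
      Inv A _ ∧ _).1.1
    simp only [Polynomial.eval_add, Polynomial.eval_mul, Polynomial.eval_C, Polynomial.eval_X]
    have h2 : A.length < sz A := length_lt_sz A
    by_cases hn : 0 < A.length
    · refine (sz_bl hn h1).trans ?_
      have h3 : A.length * (8 * A.length + 4) ≤ sz A * (8 * sz A + 4) :=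
        Nat.mul_le_mul h2.le (by omega)
      omega
    · have h3 : A.length = 0 := by omega
      rw [h3]
      simp

theorem ne_two {n : ℕ} {G : SimpleGraph (Fin n)} (hG : G.IsTree) (hN : Nice G) : n ≠ 2 := by
  rintro rfl
  have hlen := build_length hG.1
  obtain ⟨hb, hme⟩ := build_inv (adjMatrix G)
  rw [length_adjMatrix] at hb
  obtain ⟨e, he⟩ : ∃ e, e ∈ build (adjMatrix G) := by
    cases h : build (adjMatrix G) with
    | nil =>
      rw [h] at hlen
      simp at hlen
    | cons e l => exact ⟨e, List.mem_cons_self⟩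
  have h3 : e.1 < 2 := Bl.lt (by omega) hb _ (List.mem_cons_of_mem _ (List.mem_map.2 ⟨e, he, rfl⟩))
  have h4 : e.2 < 2 := Bl.lt (by omega) hb _ (Bl.par hb e he)
  have h5 : G.Adj ⟨e.1, h3⟩ ⟨e.2, h4⟩ := (me_adj G ⟨e.1, h3⟩ ⟨e.2, h4⟩).1 (hme e he)
  have h6 := h5.ne
  obtain ⟨w, hw | hw⟩ := hN _ _ h5
  · have h7 := hw.2.ne
    have h8 := hw.1
    have h9 := w.isLt
    rw [Ne, Fin.ext_iff] at h6 h7 h8
    simp only at h6 h7 h8
    omega
  · have h7 := hw.2.ne
    have h8 := hw.1
    have h9 := w.isLt
    rw [Ne, Fin.ext_iff] at h6 h7 h8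
    simp only at h6 h7 h8
    omega

theorem poly_algT : NPC.Poly algT := by
  have h1 : NPC.Poly (fun A : List (List Bool) => List.range A.length) :=
    NPC.Poly.range_length NPC.Poly.id
  have h2 : NPC.Poly (fun A : List (List Bool) => List.range (A.length * A.length + 1)) :=
    (((UPoly.length NPC.Poly.id).mul (UPoly.length NPC.Poly.id)).add (UPoly.const 1)).range
  refine (poly_ans h1 h2 poly_build).congr fun A => ?_
  unfold algT
  rw [List.length_range, List.length_range]

/-- **Trees.** -/
theorem trees : ∃ A : List Bool → List Bool, PolyTime A ∧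
    ∀ (n : ℕ) (G : SimpleGraph (Fin n)), G.IsTree → Nice G →
      ∃ m : ℕ, A (bits (adjMatrix G)) = bits m ∧
        (∃ l : Sym2 (Fin n) → ℕ, IsProper G l ∧ labelSum G l = m) ∧
        ∀ l : Sym2 (Fin n) → ℕ, IsProper G l → m ≤ labelSum G l := by
  have h0 : NPC.Poly (fun y : List Bool × List (List Bool) => algT y.2) :=
    NPC.Poly.comp poly_algT (NPC.Poly.snd NPC.Poly.id)
  have h1 : NPC.Poly (fun x : List Bool => (unbits (List (List Bool)) x).map algT) :=
    NPC.Poly.optMap_fp (h := fun _ y => algT y) poly_unbits h0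
  refine ⟨_, polyTime_opt h1, ?_⟩
  intro n G hG hN
  obtain ⟨h2, h3⟩ := algT_spec hG (ne_two hG hN)
  refine ⟨algT (adjMatrix G), ?_, h2, h3⟩
  simp only [unbits_bits, Option.map_some]

end Pool.Agent.X65.MS
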