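import Mathlib

/-!
# Proper labellings with minimum label sum: definitions
-/

set_option autoImplicit false

namespace Pool.Agent.X65.MS

variable {V : Type} [Fintype V]

open Classical in
/-- the colour of a vertex: the sum of the labels of the edges at the vertex -/
noncomputable def colour (G : SimpleGraph V) (l : Sym2 V → ℕ) (v : V) : ℕ :=
  ∑ u ∈ Finset.univ.filter (fun u => G.Adj v u), l s(v, u)

open Classical in
/-- the label sum -/
noncomputable def labelSum (G : SimpleGraph V) (l : Sym2 V → ℕ) : ℕ :=
  ∑ e ∈ Finset.univ.filter (fun e => e ∈ G.edgeSet), l e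

/-- `l` is a proper labelling: the labels of the edges are positive and adjacent vertices have
different colours. -/
def IsProper (G : SimpleGraph V) (l : Sym2 V → ℕ) : Prop :=
  (∀ e ∈ G.edgeSet, 1 ≤ l e) ∧ ∀ u v, G.Adj u v → colour G l u ≠ colour G l v

/-- `G` is nice: no component is an edge. -/
def Nice (G : SimpleGraph V) : Prop :=
  ∀ u v, G.Adj u v → ∃ w, (w ≠ v ∧ G.Adj u w) ∨ (w ≠ u ∧ G.Adj v w)

open Classical in
/-- the degree -/
noncomputable def dg (G : SimpleGraph V) (v : V) : ℕ := (Finset.univ.filter (fun u => G.Adj v u)).card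

open Classical in
/-- the number of edges -/
noncomputable def numE (G : SimpleGraph V) : ℕ := (Finset.univ.filter (fun e => e ∈ G.edgeSet)).card

theorem two_numE (G : SimpleGraph V) : ∑ v, dg G v = 2 * numE G := by
  classical
  have h := G.sum_degrees_eq_twice_card_edges
  have h1 : G.edgeFinset = Finset.univ.filter (fun e => e ∈ G.edgeSet) := by
    ext e; simp
  rw [h1] at h
  unfold numE
  have h2 : ∀ v, dg G v = G.degree v := by
    intro v
    unfold dg
    rw [← SimpleGraph.card_neighborFinset_eq_degree]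
    congr 1
    ext u
    simp
  simp only [h2]
  convert h

theorem colour_eq {G : SimpleGraph V} {l : Sym2 V → ℕ} (h : ∀ e ∈ G.edgeSet, 1 ≤ l e) (v : V) :
    colour G l v = dg G v + colour G (fun e => l e - 1) v := by
  classical
  unfold colour dg
  rw [Finset.card_eq_sum_ones, ← Finset.sum_add_distrib]
  refine Finset.sum_congr rfl fun u hu => ?_
  have h1 := h s(v, u) (by simpa using hu)
  simp only
  omega

theorem labelSum_eq {G : SimpleGraph V} {l : Sym2 V → ℕ} (h : ∀ e ∈ G.edgeSet, 1 ≤ l e) :
    labelSum G l = numE G + labelSum G (fun e => l e - 1) := by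
  classical
  unfold labelSum numE
  rw [Finset.card_eq_sum_ones, ← Finset.sum_add_distrib]
  refine Finset.sum_congr rfl fun e he => ?_
  have h1 := h e (by simpa using he)
  omega

theorem indep_sum_le {G : SimpleGraph V} (w : Sym2 V → ℕ) (S : Finset V)
    (hS : ∀ a ∈ S, ∀ b ∈ S, ¬ G.Adj a b) : ∑ v ∈ S, colour G w v ≤ labelSum G w := by
  classical
  unfold colour labelSum
  rw [Finset.sum_sigma']
  have hinj : Set.InjOn (fun x : (_ : V) × V => s(x.1, x.2))
      (S.sigma fun v => Finset.univ.filter (fun u => G.Adj v u) : Finset _) := by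
    rintro ⟨a, b⟩ hab ⟨c, d⟩ hcd h
    simp only [Finset.coe_sigma, Set.mem_sigma_iff, Finset.mem_coe, Finset.mem_filter,
      Finset.mem_univ, true_and] at hab hcd
    simp only [Sym2.eq_iff] at h
    rcases h with ⟨h1, h2⟩ | ⟨h1, h2⟩
    · subst h1; subst h2; rfl
    · subst h1; subst h2
      exact absurd hab.2 (hS _ hab.1 _ hcd.1)
  rw [← Finset.sum_image (f := w) (g := fun x : (_ : V) × V => s(x.1, x.2)) hinj]
  refine Finset.sum_le_sum_of_subset ?_
  intro e he
  rw [Finset.mem_image] at he
  obtain ⟨⟨a, b⟩, hab, rfl⟩ := he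
  rw [Finset.mem_sigma, Finset.mem_filter] at hab
  rw [Finset.mem_filter]
  exact ⟨Finset.mem_univ _, hab.2.2⟩

theorem colour_le (G : SimpleGraph V) (w : Sym2 V → ℕ) (v : V) : colour G w v ≤ labelSum G w := by
  have h := indep_sum_le (G := G) w {v} (by simp)
  simpa using h

end Pool.Agent.X65.MS
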