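import Pool.Agent.X65.MS.Tree
import Pool.Agent.X65.MS.Defs
import Pool.Agent.H671R2.PolyAuto
import Pool.Agent.H671R2.OOF.NP

/-!
# Building sequences of trees
-/

set_option autoImplicit false

namespace Pool.Agent.X65.MS

open Pool.Agent.NPC Pool.Agent.NPC.R671 Pool.Agent.H671R2.Ord

/-- the vertices reached so far -/
def seen (st : List (ℕ × ℕ)) : List ℕ := 0 :: st.map Prod.fst

/-- the next possible vertices, with parents -/
def cnd (A : List (List Bool)) (st : List (ℕ × ℕ)) : List (ℕ × ℕ) :=
  ((List.range A.length) ×ˢ seen st).filter fun e => me A e.1 e.2 && !decide (e.1 ∈ seen st)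

/-- one step -/
def bstep (A : List (List Bool)) (st : List (ℕ × ℕ)) : List (ℕ × ℕ) :=
  (cnd A st).head?.elim st fun e => e :: st

/-- the building sequence of a tree -/
def build (A : List (List Bool)) : List (ℕ × ℕ) :=
  (List.range A.length).foldl (fun st _ => bstep A st) []

theorem mem_cnd {A : List (List Bool)} {st : List (ℕ × ℕ)} {e : ℕ × ℕ} : e ∈ cnd A st ↔
    (e.1 < A.length ∧ e.2 ∈ seen st) ∧ me A e.1 e.2 = true ∧ e.1 ∉ seen st := by
  unfold cnd
  rw [List.mem_filter, Bool.and_eq_true, Bool.not_eq_true', decide_eq_false_iff_not]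
  obtain ⟨a, b⟩ := e
  rw [List.mem_product, List.mem_range]

/-- the invariant -/
def Inv (A : List (List Bool)) (st : List (ℕ × ℕ)) : Prop :=
  Bl A.length st ∧ ∀ e ∈ st, me A e.1 e.2 = true

theorem bstep_cases (A : List (List Bool)) (st : List (ℕ × ℕ)) :
    (cnd A st = [] ∧ bstep A st = st) ∨ ∃ e ∈ cnd A st, bstep A st = e :: st := by
  unfold bstep
  cases h : cnd A st with
  | nil => exact Or.inl ⟨rfl, rfl⟩
  | cons e l => exact Or.inr ⟨e, List.mem_cons_self, rfl⟩

theorem inv_bstep {A : List (List Bool)} {st : List (ℕ × ℕ)} (h : Inv A st) :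
    Inv A (bstep A st) := by
  rcases bstep_cases A st with ⟨_, h1⟩ | ⟨e, he, h1⟩
  · rw [h1]; exact h
  · rw [h1]
    rw [mem_cnd] at he
    refine ⟨⟨h.1, he.1.1, he.2.2, he.1.2⟩, ?_⟩
    intro f hf
    rcases List.mem_cons.1 hf with hf | hf
    · rw [hf]; exact he.2.1
    · exact h.2 f hf

theorem fold_stay {A : List (List Bool)} {st : List (ℕ × ℕ)} (h : cnd A st = []) :
    ∀ l : List ℕ, l.foldl (fun st _ => bstep A st) st = st
  | [] => rfl
  | _ :: l => by
    rw [List.foldl_cons]
    have h1 : bstep A st = st := by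
      unfold bstep
      rw [h]
      rfl
    rw [h1]
    exact fold_stay h l

theorem fold_inv {A : List (List Bool)} : ∀ (l : List ℕ) (st : List (ℕ × ℕ)), Inv A st →
    Inv A (l.foldl (fun st _ => bstep A st) st) ∧
    (st.length + l.length ≤ (l.foldl (fun st _ => bstep A st) st).length ∨
      cnd A (l.foldl (fun st _ => bstep A st) st) = [])
  | [], st, h => ⟨h, Or.inl (by simp)⟩
  | a :: l, st, h => by
    rcases bstep_cases A st with ⟨h1, h2⟩ | ⟨e, _, h2⟩
    · rw [fold_stay h1 (a :: l)]
      exact ⟨h, Or.inr h1⟩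
    · rw [List.foldl_cons]
      obtain ⟨h3, h4⟩ := fold_inv l (bstep A st) (inv_bstep h)
      refine ⟨h3, ?_⟩
      rcases h4 with h4 | h4
      · left
        rw [h2, List.length_cons] at h4
        rw [List.length_cons]
        rw [h2]
        omega
      · exact Or.inr h4

theorem build_inv (A : List (List Bool)) : Inv A (build A) :=
  (fold_inv (List.range A.length) [] ⟨trivial, by simp⟩).1

theorem build_done {A : List (List Bool)} (hn : 0 < A.length) : cnd A (build A) = [] := by
  obtain ⟨h1, h2⟩ := fold_inv (List.range A.length) [] ⟨trivial, by simp⟩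
  rcases h2 with h2 | h2
  · exfalso
    rw [List.length_range, List.length_nil, Nat.zero_add] at h2
    have h3 := Bl.nodup h1.1
    have h4 := Bl.lt hn h1.1
    have h5 : (0 :: ((List.range A.length).foldl (fun st _ => bstep A st) []).map
        Prod.fst).length ≤ (List.range A.length).length :=
      (h3.subperm fun u hu => List.mem_range.2 (h4 u hu)).length_le
    rw [List.length_cons, List.length_map, List.length_range] at h5
    omega
  · exact h2

section

variable {n : ℕ} {G : SimpleGraph (Fin n)}

theorem all_seen (hG : G.Connected) (u : Fin n) : (u : ℕ) ∈ seen (build (adjMatrix G)) := by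
  have hn : 0 < n := lt_of_le_of_lt (Nat.zero_le _) u.isLt
  have hdone := build_done (A := adjMatrix G) (by rw [length_adjMatrix]; exact hn)
  have key : ∀ a b : Fin n, G.Walk a b → (a : ℕ) ∈ seen (build (adjMatrix G)) →
      (b : ℕ) ∈ seen (build (adjMatrix G)) := by
    intro a b w
    induction w with
    | nil => exact fun h => h
    | @cons a c b hac _ ih =>
      intro ha
      refine ih ?_
      by_contra hc
      have h1 : ((c : ℕ), (a : ℕ)) ∈ cnd (adjMatrix G) (build (adjMatrix G)) :=
        mem_cnd.2 ⟨⟨by rw [length_adjMatrix]; exact c.isLt, ha⟩, (me_adj G c a).2 hac.symm, hc⟩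
      rw [hdone] at h1
      exact List.not_mem_nil h1
  obtain ⟨w⟩ := hG.preconnected ⟨0, hn⟩ u
  exact key _ _ w List.mem_cons_self

theorem build_length (hG : G.Connected) : (build (adjMatrix G)).length + 1 = n := by
  have hn : 0 < n := by
    obtain ⟨v⟩ := hG.nonempty
    exact lt_of_le_of_lt (Nat.zero_le _) v.isLt
  have hb := (build_inv (adjMatrix G)).1
  rw [length_adjMatrix] at hb
  have h1 := Bl.nodup hb
  have h2 : (0 :: (build (adjMatrix G)).map Prod.fst).Perm (List.range n) := by
    rw [List.perm_ext_iff_of_nodup h1 List.nodup_range]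
    intro u
    rw [List.mem_range]
    exact ⟨Bl.lt hn hb u, fun hu => all_seen hG ⟨u, hu⟩⟩
  have h3 := h2.length_eq
  rw [List.length_cons, List.length_map, List.length_range] at h3
  exact h3

theorem nodup_edges {n : ℕ} : ∀ {es : List (ℕ × ℕ)}, Bl n es →
    (es.map fun e => s(e.1, e.2)).Nodup
  | [], _ => by simp
  | e :: es, h => by
    rw [List.map_cons, List.nodup_cons]
    refine ⟨?_, nodup_edges h.1⟩
    intro hm
    rw [List.mem_map] at hm
    obtain ⟨f, hf, hfe⟩ := hm
    have h1 : f.1 ∈ 0 :: es.map Prod.fst :=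
      List.mem_cons_of_mem _ (List.mem_map.2 ⟨f, hf, rfl⟩)
    have h2 := Bl.par h.1 f hf
    rw [Sym2.eq_iff] at hfe
    rcases hfe with ⟨h3, _⟩ | ⟨_, h3⟩
    · rw [h3] at h1
      exact h.2.2.1 h1
    · rw [h3] at h2
      exact h.2.2.1 h2

open Classical in
/-- the edges, as pairs of numbers -/
noncomputable def eN (G : SimpleGraph (Fin n)) : Finset (Sym2 ℕ) :=
  (Finset.univ.filter (fun e => e ∈ G.edgeSet)).image (Sym2.map Fin.val)

theorem eN_eq (hG : G.IsTree) :
    eN G = ((build (adjMatrix G)).map fun e => s(e.1, e.2)).toFinset := by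
  classical
  have hinj : Function.Injective (Sym2.map (Fin.val : Fin n → ℕ)) :=
    Sym2.map.injective Fin.val_injective
  have hn : 0 < n := by
    obtain ⟨v⟩ := hG.1.nonempty
    exact lt_of_le_of_lt (Nat.zero_le _) v.isLt
  obtain ⟨hb, hme⟩ := build_inv (adjMatrix G)
  rw [length_adjMatrix] at hb
  symm
  refine Finset.eq_of_subset_of_card_le ?_ ?_
  · intro x hx
    rw [List.mem_toFinset, List.mem_map] at hx
    obtain ⟨e, he, rfl⟩ := hx
    have h1 : e.1 < n := Bl.lt hn hb _ (List.mem_cons_of_mem _ (List.mem_map.2 ⟨e, he, rfl⟩))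
    have h2 : e.2 < n := Bl.lt hn hb _ (Bl.par hb e he)
    unfold eN
    rw [Finset.mem_image]
    refine ⟨s(⟨e.1, h1⟩, ⟨e.2, h2⟩), ?_, by simp⟩
    rw [Finset.mem_filter]
    exact ⟨Finset.mem_univ _, (me_adj G ⟨e.1, h1⟩ ⟨e.2, h2⟩).1 (hme e he)⟩
  · unfold eN
    rw [Finset.card_image_of_injective _ hinj, List.toFinset_card_of_nodup (nodup_edges hb),
      List.length_map]
    have h1 := hG.card_edgeFinset
    have h2 := build_length hG.1
    have h3 : (Finset.univ.filter (fun e => e ∈ G.edgeSet)).card = G.edgeFinset.card := by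
      congr 1
      ext e
      simp
    rw [h3]
    rw [Fintype.card_fin] at h1
    omega

theorem labelSum_tree (hG : G.IsTree) (f : Sym2 ℕ → ℕ) :
    labelSum G (fun e => f (e.map Fin.val)) =
      ((build (adjMatrix G)).map fun e => f s(e.1, e.2)).sum := by
  classical
  have hinj : Function.Injective (Sym2.map (Fin.val : Fin n → ℕ)) :=
    Sym2.map.injective Fin.val_injective
  have hb := (build_inv (adjMatrix G)).1
  have h1 : labelSum G (fun e => f (e.map Fin.val)) = ∑ e ∈ eN G, f e := by
    unfold labelSum eN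
    rw [Finset.sum_image fun a _ b _ h => hinj h]
  rw [h1, eN_eq hG, List.sum_toFinset f (nodup_edges hb), List.map_map]
  rfl

theorem colour_tree (hG : G.IsTree) (f : Sym2 ℕ → ℕ) (u : Fin n) :
    colour G (fun e => f (e.map Fin.val)) u =
      ((build (adjMatrix G)).map fun e =>
        if e.1 = (u : ℕ) ∨ e.2 = (u : ℕ) then f s(e.1, e.2) else 0).sum := by
  classical
  have hb := (build_inv (adjMatrix G)).1
  have h1 : colour G (fun e => f (e.map Fin.val)) u =
      ∑ e ∈ eN G, if (u : ℕ) ∈ e then f e else 0 := by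
    rw [← Finset.sum_filter]
    unfold colour
    refine Finset.sum_bij (fun w _ => s((u : ℕ), (w : ℕ))) ?_ ?_ ?_ ?_
    · intro w hw
      rw [Finset.mem_filter] at hw ⊢
      refine ⟨?_, by simp⟩
      unfold eN
      rw [Finset.mem_image]
      refine ⟨s(u, w), ?_, by simp⟩
      rw [Finset.mem_filter]
      exact ⟨Finset.mem_univ _, hw.2⟩
    · intro w _ w' _ h
      rw [Sym2.eq_iff] at h
      rcases h with ⟨_, h⟩ | ⟨h, h'⟩
      · exact Fin.ext h
      · exact Fin.ext (h'.trans h)
    · intro x hx
      rw [Finset.mem_filter] at hx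
      unfold eN at hx
      rw [Finset.mem_image] at hx
      obtain ⟨⟨e, he, rfl⟩, hu⟩ := hx
      rw [Finset.mem_filter] at he
      induction e using Sym2.ind with
      | _ a b =>
        rw [Sym2.map_mk] at hu
        rw [Sym2.mem_iff] at hu
        rcases hu with hu | hu
        · refine ⟨b, ?_, ?_⟩
          · rw [Finset.mem_filter]
            have : u = a := Fin.ext hu
            rw [this]
            exact ⟨Finset.mem_univ _, he.2⟩
          · rw [Sym2.map_mk, hu]
        · refine ⟨a, ?_, ?_⟩
          · rw [Finset.mem_filter]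
            have : u = b := Fin.ext hu
            rw [this]
            exact ⟨Finset.mem_univ _, ((SimpleGraph.mem_edgeSet G).1 he.2).symm⟩
          · rw [Sym2.map_mk, hu]
            exact Sym2.eq_swap
    · intro w _
      rfl
  rw [h1, eN_eq hG, List.sum_toFinset _ (nodup_edges hb), List.map_map]
  congr 1
  refine List.map_congr_left fun e _ => ?_
  simp only [Function.comp, Sym2.mem_iff, eq_comm]

theorem sum_key {β γ : Type} [DecidableEq γ] (k : β → γ) (g : β → ℕ) : ∀ {l : List β},
    (l.map k).Nodup → ∀ e ∈ l, (l.map fun e' => if k e' = k e then g e' else 0).sum = g e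
  | [], _, e, he => by simp at he
  | a :: l, h, e, he => by
    rw [List.map_cons, List.nodup_cons] at h
    rw [List.map_cons, List.sum_cons]
    rcases List.mem_cons.1 he with he | he
    · subst he
      rw [if_pos rfl]
      have h1 : (l.map fun e' => if k e' = k e then g e' else 0).sum = 0 := by
        rw [List.sum_eq_zero]
        intro x hx
        rw [List.mem_map] at hx
        obtain ⟨e', he', rfl⟩ := hx
        rw [if_neg]
        intro h2
        exact h.1 (List.mem_map.2 ⟨e', he', h2⟩)
      omega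
    · rw [if_neg, sum_key k g h.2 e he, Nat.zero_add]
      intro h2
      exact h.1 (List.mem_map.2 ⟨e, he, h2.symm⟩)

theorem sum_X {n : ℕ} (lam : ℕ → ℕ) : ∀ {es : List (ℕ × ℕ)}, Bl n es →
    ∀ u ∈ 0 :: es.map Prod.fst,
      (es.map fun e => if e.1 = u ∨ e.2 = u then lam e.1 else 0).sum = X lam 0 es u
  | [], _, u, hu => by
    simp at hu
    rw [hu]
    unfold X
    simp
  | e :: es, h, u, hu => by
    rw [List.map_cons, List.sum_cons]
    by_cases hue : u = e.1
    · rw [hue, X_new h, if_pos (Or.inl rfl)]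
      have h1 : (es.map fun e' => if e'.1 = e.1 ∨ e'.2 = e.1 then lam e'.1 else 0).sum = 0 := by
        rw [List.sum_eq_zero]
        intro x hx
        rw [List.mem_map] at hx
        obtain ⟨e', he', rfl⟩ := hx
        rw [if_neg]
        rintro (h2 | h2)
        · refine h.2.2.1 ?_
          rw [← h2]
          exact List.mem_cons_of_mem _ (List.mem_map.2 ⟨e', he', rfl⟩)
        · refine h.2.2.1 ?_
          rw [← h2]
          exact Bl.par h.1 e' he'
      omega
    · have hu' : u ∈ 0 :: es.map Prod.fst := by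
        rw [List.map_cons, List.mem_cons, List.mem_cons] at hu
        rw [List.mem_cons]
        rcases hu with h | h | h
        · exact Or.inl h
        · exact absurd h hue
        · exact Or.inr h
      rw [sum_X lam h.1 u hu', X_cons]
      by_cases h2 : e.2 = u
      · rw [if_pos (Or.inr h2), if_pos h2]
        omega
      · rw [if_neg h2, if_neg]
        · omega
        · rintro (h3 | h3)
          · exact hue h3.symm
          · exact h2 h3

/-- Labellings of a tree and labellings of the building sequence. -/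
theorem proper_iff (hG : G.IsTree) {f : Sym2 ℕ → ℕ} {lam : ℕ → ℕ}
    (h : ∀ e ∈ build (adjMatrix G), f s(e.1, e.2) = lam e.1) :
    (IsProper G (fun e => f (e.map Fin.val)) ↔ Good (build (adjMatrix G)) lam) ∧
    labelSum G (fun e => f (e.map Fin.val)) =
      ((build (adjMatrix G)).map fun e => lam e.1).sum := by
  classical
  have hn : 0 < n := by
    obtain ⟨v⟩ := hG.1.nonempty
    exact lt_of_le_of_lt (Nat.zero_le _) v.isLt
  obtain ⟨hb, hme⟩ := build_inv (adjMatrix G)
  rw [length_adjMatrix] at hb
  have hcol : ∀ u : Fin n, colour G (fun e => f (e.map Fin.val)) u =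
      X lam 0 (build (adjMatrix G)) u := by
    intro u
    rw [colour_tree hG, ← sum_X lam hb u (all_seen hG.1 u)]
    congr 1
    refine List.map_congr_left fun e he => ?_
    rw [h e he]
  have hmem : ∀ a b : Fin n, G.Adj a b → ∃ e ∈ build (adjMatrix G),
      s((a : ℕ), (b : ℕ)) = s(e.1, e.2) := by
    intro a b hab
    have h1 : s((a : ℕ), (b : ℕ)) ∈ eN G := by
      unfold eN
      rw [Finset.mem_image]
      refine ⟨s(a, b), ?_, by simp⟩
      rw [Finset.mem_filter]
      exact ⟨Finset.mem_univ _, hab⟩
    rw [eN_eq hG, List.mem_toFinset, List.mem_map] at h1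
    obtain ⟨e, he, h2⟩ := h1
    exact ⟨e, he, h2.symm⟩
  refine ⟨⟨?_, ?_⟩, ?_⟩
  · rintro ⟨h1, h2⟩ e he
    have h3 : e.1 < n := Bl.lt hn hb _ (List.mem_cons_of_mem _ (List.mem_map.2 ⟨e, he, rfl⟩))
    have h4 : e.2 < n := Bl.lt hn hb _ (Bl.par hb e he)
    have h5 : G.Adj ⟨e.1, h3⟩ ⟨e.2, h4⟩ := (me_adj G ⟨e.1, h3⟩ ⟨e.2, h4⟩).1 (hme e he)
    have h6 : 1 ≤ f s(e.1, e.2) := h1 s(⟨e.1, h3⟩, ⟨e.2, h4⟩) h5
    have h7 := h2 _ _ h5
    rw [hcol, hcol] at h7
    rw [← h e he]
    exact ⟨h6, h7⟩
  · intro hg
    constructor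
    · intro e he
      induction e using Sym2.ind with
      | _ a b =>
        obtain ⟨x, hx, h1⟩ := hmem a b he
        simp only
        rw [Sym2.map_mk, h1, h x hx]
        exact (hg x hx).1
    · intro a b hab
      rw [hcol, hcol]
      obtain ⟨x, hx, h1⟩ := hmem a b hab
      have h2 := (hg x hx).2
      rw [Sym2.eq_iff] at h1
      rcases h1 with ⟨h3, h4⟩ | ⟨h3, h4⟩
      · rw [h3, h4]
        exact h2
      · rw [h3, h4]
        exact h2.symm
  · rw [labelSum_tree hG]
    congr 1
    exact List.map_congr_left fun e he => h e he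

/-- the algorithm -/
def algT (A : List (List Bool)) : ℕ := ans A.length (A.length * A.length + 1) (build A)

theorem algT_spec (hG : G.IsTree) (h2 : n ≠ 2) :
    (∃ l, IsProper G l ∧ labelSum G l = algT (adjMatrix G)) ∧
    ∀ l, IsProper G l → algT (adjMatrix G) ≤ labelSum G l := by
  classical
  have hinj : Function.Injective (Sym2.map (Fin.val : Fin n → ℕ)) :=
    Sym2.map.injective Fin.val_injective
  have hn : 0 < n := by
    obtain ⟨v⟩ := hG.1.nonempty
    exact lt_of_le_of_lt (Nat.zero_le _) v.isLt
  have hb := (build_inv (adjMatrix G)).1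
  have hlen := build_length hG.1
  rw [length_adjMatrix] at hb
  unfold algT
  rw [length_adjMatrix]
  constructor
  · have h3 : ans n (n * n + 1) (build (adjMatrix G)) < n * n + 1 := by
      refine ans_lt hn hb (by omega) ?_
      have h4 : (build (adjMatrix G)).length = n - 1 := by omega
      rw [h4]
      have h5 : n - 1 + 1 = n := by omega
      rw [h5]
      have : (n - 1) * n ≤ n * n := Nat.mul_le_mul_right n (by omega)
      omega
    obtain ⟨lam, hg, hs⟩ := exists_ans hb h3
    have hf : ∀ e ∈ build (adjMatrix G), (fun x : Sym2 ℕ => ((build (adjMatrix G)).map fun e' =>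
        if s(e'.1, e'.2) = x then lam e'.1 else 0).sum) s(e.1, e.2) = lam e.1 := by
      intro e he
      exact sum_key (fun e : ℕ × ℕ => s(e.1, e.2)) (fun e => lam e.1) (nodup_edges hb) e he
    obtain ⟨g1, g2⟩ := proper_iff hG (f := fun x : Sym2 ℕ => ((build (adjMatrix G)).map fun e' =>
        if s(e'.1, e'.2) = x then lam e'.1 else 0).sum) (lam := lam) hf
    exact ⟨_, g1.2 hg, by rw [g2, hs]⟩
  · intro l hl
    have hl' : (fun e : Sym2 (Fin n) => Function.extend (Sym2.map Fin.val) l (fun _ => 0)
        (e.map Fin.val)) = l := by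
      funext e
      exact hinj.extend_apply _ _ _
    have hnd : ((build (adjMatrix G)).map Prod.fst).Nodup := (List.nodup_cons.1 (Bl.nodup hb)).2
    have hf : ∀ e ∈ build (adjMatrix G),
        Function.extend (Sym2.map Fin.val) l (fun _ => 0) s(e.1, e.2) =
        (fun v => ((build (adjMatrix G)).map fun e' => if e'.1 = v then
          Function.extend (Sym2.map Fin.val) l (fun _ => 0) s(e'.1, e'.2) else 0).sum) e.1 := by
      intro e he
      exact (sum_key (fun e : ℕ × ℕ => e.1) (fun e' =>
        Function.extend (Sym2.map Fin.val) l (fun _ => 0) s(e'.1, e'.2)) hnd e he).symm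
    obtain ⟨g1, g2⟩ := proper_iff hG (f := Function.extend (Sym2.map Fin.val) l (fun _ => 0))
      (lam := fun v => ((build (adjMatrix G)).map fun e' => if e'.1 = v then
          Function.extend (Sym2.map Fin.val) l (fun _ => 0) s(e'.1, e'.2) else 0).sum) hf
    rw [hl'] at g1 g2
    rw [g2]
    exact ans_le hn hb (g1.1 hl)

end

end Pool.Agent.X65.MS
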