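import Pool.Agent.X65.MS.Red

/-!
# Correctness of the reduction
-/

set_option autoImplicit false

namespace Pool.Agent.X65.MS

open Pool.Agent.NPC Pool.Agent.NPC.R671 Pool.Agent.X130

section

variable {φ : Fm}

theorem mem_base {b : ℕ} (hb : b < 6 * φ.length) : ((0, b, 0, 0) : Lb) ∈ vs φ :=
  mem_vs.2 (Or.inl ⟨rfl, hb, rfl⟩)

theorem mem_pad {b : ℕ} (hb : b < 6 * φ.length) : ((1, b, b, 0) : Lb) ∈ vs φ :=
  mem_vs.2 (Or.inr (Or.inl ⟨rfl, hb, hb, bad_irrefl φ b, rfl⟩))

theorem mem_blocker {b i r : ℕ} (hb : b < 6 * φ.length) (hi : i < T φ + 1) (hr : r < T φ + 1) :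
    ((2, b, i, r) : Lb) ∈ vs φ :=
  mem_vs.2 (Or.inr (Or.inr (Or.inl ⟨rfl, hb, hi, hr⟩)))

theorem D_big {b : ℕ} (hb : b < 6 * φ.length) : 7 ≤ D φ := by
  unfold D
  have : 1 * 1 ≤ (T φ + 1) * (T φ + 1) := Nat.mul_le_mul (by omega) (by omega)
  omega

/-- Only allowed values occur. -/
theorem allowed {l : Sym2 (Fin (vs φ).length) → ℕ} (hl : IsProper (gr φ) l)
    (hs : labelSum (gr φ) l ≤ numE (gr φ) + T φ) {b : ℕ} (hb : b < 6 * φ.length)
    {v : Fin (vs φ).length} (hv : lb φ v = (0, b, 0, 0)) :
    forb φ b (colour (gr φ) (fun e => l e - 1) v) = false := by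
  classical
  obtain ⟨hl1, hl2⟩ := hl
  rw [labelSum_eq hl1] at hs
  have hx := colour_le (gr φ) (fun e => l e - 1) v
  have hcv := colour_eq hl1 v
  rw [dg_base hb hv] at hcv
  generalize colour (gr φ) (fun e => l e - 1) v = i at hx hcv
  by_contra hf
  rw [Bool.not_eq_false] at hf
  have hi : i < T φ + 1 := by omega
  have hg : ∀ r, r < T φ + 1 → ∃ u, lb φ u = (2, b, i, r) := fun r hr =>
    exists_lb (mem_blocker hb hi hr)
  have hne : Nonempty (Fin (vs φ).length) := ⟨v⟩
  choose! g hg using hg
  have hinj : Set.InjOn g (Finset.range (T φ + 1) : Finset ℕ) := by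
    intro r hr r' hr' h
    rw [Finset.mem_coe, Finset.mem_range] at hr hr'
    have h1 := hg r hr
    rw [h, hg r' hr'] at h1
    simp only [Prod.mk.injEq, true_and] at h1
    exact h1.symm
  have h1 := indep_sum_le (G := gr φ) (fun e => l e - 1) ((Finset.range (T φ + 1)).image g) (by
    intro a ha c hc hac
    rw [Finset.mem_image] at ha hc
    obtain ⟨r, hr, rfl⟩ := ha
    obtain ⟨r', hr', rfl⟩ := hc
    rw [Finset.mem_range] at hr hr'
    rw [adj_iff, hg r hr, hg r' hr'] at hac
    unfold ad at hac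
    simp only [Bool.or_eq_true, ad0_iff] at hac
    omega)
  have h2 : ∑ u ∈ (Finset.range (T φ + 1)).image g, 1 ≤
      ∑ u ∈ (Finset.range (T φ + 1)).image g, colour (gr φ) (fun e => l e - 1) u := by
    refine Finset.sum_le_sum fun u hu => ?_
    rw [Finset.mem_image] at hu
    obtain ⟨r, hr, rfl⟩ := hu
    rw [Finset.mem_range] at hr
    have h3 := colour_eq hl1 (g r)
    rw [dg_blocker hb hi hr hf (hg r hr)] at h3
    have h4 := hl2 v (g r) (by
      rw [adj_iff, hv, hg r hr]
      unfold ad
      rw [Bool.or_eq_true]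
      left
      rw [ad0_iff]
      simp)
    omega
  rw [Finset.sum_const, Finset.card_image_of_injOn hinj, Finset.card_range] at h2
  simp only [smul_eq_mul, mul_one] at h2
  omega

theorem nae_of_labelling (hs : SmallN φ) {l : Sym2 (Fin (vs φ).length) → ℕ}
    (hl : IsProper (gr φ) l) (hsum : labelSum (gr φ) l ≤ numE (gr φ) + T φ) : NAEN φ := by
  classical
  have hval : ∀ b, b < 6 * φ.length → ∃ v, lb φ v = (0, b, 0, 0) := fun b hb =>
    exists_lb (mem_base hb)
  have hx : ∃ x : ℕ → ℕ, ∀ b, b < 6 * φ.length → forb φ b (x b) = false ∧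
      ∀ c, c < 6 * φ.length → bad φ b c = true → x b ≠ x c := by
    by_cases h0 : φ.length = 0
    · exact ⟨fun _ => 0, fun b hb => by omega⟩
    obtain ⟨v0, _⟩ := hval 0 (by omega)
    have hne : Nonempty (Fin (vs φ).length) := ⟨v0⟩
    choose! g hg using hval
    refine ⟨fun b => colour (gr φ) (fun e => l e - 1) (g b), fun b hb =>
      ⟨allowed hl hsum hb (hg b hb), fun c hc hbc => ?_⟩⟩
    have h1 := hl.2 (g b) (g c) (by
      rw [adj_iff, hg b hb, hg c hc]
      unfold ad
      rw [Bool.or_eq_true]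
      left
      rw [ad0_iff]
      exact Or.inl ⟨rfl, Or.inl ⟨rfl, hbc⟩⟩)
    rw [colour_eq hl.1, colour_eq hl.1 (g c), dg_base hb (hg b hb), dg_base hc (hg c hc)] at h1
    intro h
    have h' : colour (gr φ) (fun e => l e - 1) (g b) = colour (gr φ) (fun e => l e - 1) (g c) := h
    exact h1 (by rw [h'])
  obtain ⟨x, hx⟩ := hx
  have hforb : ∀ b, b < 6 * φ.length → x b ≤ 2 ∧ (b < 3 * φ.length → x b ≤ 1) := by
    intro b hb
    have h1 := (hx b hb).1
    rw [← Bool.not_eq_true] at h1
    unfold forb at h1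
    simp only [Bool.or_eq_true, Bool.and_eq_true, decide_eq_true_eq, not_or, not_and, not_le] at h1
    constructor
    · omega
    · intro h
      have := h1.2 h
      omega
  refine ⟨fun b => decide (x b = 1), ?_⟩
  intro t ht
  obtain ⟨j, hj, hjt⟩ := List.getElem_of_mem ht
  obtain ⟨s1, s2, s3⟩ := hs t ht
  have hget : φ.getD j (0, 0, 0) = t := by
    rw [List.getD_eq_getElem _ _ hj]
    exact hjt
  have hq : ∀ k, k < 3 → (3 * φ.length + 3 * j + k) / 3 - φ.length = j ∧
      (3 * φ.length + 3 * j + k) % 3 = k := by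
    intro k hk
    omega
  have hva : va φ (3 * φ.length + 3 * j + 0) = t.1 ∧ va φ (3 * φ.length + 3 * j + 1) = t.2.1 ∧
      va φ (3 * φ.length + 3 * j + 2) = t.2.2 := by
    unfold va
    refine ⟨?_, ?_, ?_⟩
    · rw [(hq 0 (by omega)).1, (hq 0 (by omega)).2, hget]
      rfl
    · rw [(hq 1 (by omega)).1, (hq 1 (by omega)).2, hget]
      rfl
    · rw [(hq 2 (by omega)).1, (hq 2 (by omega)).2, hget]
      rfl
  have hcc : ∀ k k', k < 3 → k' < 3 → k ≠ k' →
      x (3 * φ.length + 3 * j + k) ≠ x (3 * φ.length + 3 * j + k') := by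
    intro k k' hk hk' hne
    refine (hx _ (by omega)).2 _ (by omega) ?_
    unfold bad
    simp only [Bool.or_eq_true, Bool.and_eq_true, Bool.not_eq_true', decide_eq_true_eq,
      decide_eq_false_iff_not]
    left
    omega
  have hvc : ∀ k b, k < 3 → b < 3 * φ.length → va φ (3 * φ.length + 3 * j + k) = b →
      x b ≠ x (3 * φ.length + 3 * j + k) := by
    intro k b hk hb hvb
    refine (hx _ (by omega)).2 _ (by omega) ?_
    unfold bad
    simp only [Bool.or_eq_true, Bool.and_eq_true, Bool.not_eq_true', decide_eq_true_eq,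
      decide_eq_false_iff_not]
    right; left
    exact ⟨⟨hb, by omega⟩, hvb⟩
  have a1 := hvc 0 _ (by omega) s1 hva.1
  have a2 := hvc 1 _ (by omega) s2 hva.2.1
  have a3 := hvc 2 _ (by omega) s3 hva.2.2
  have b1 := hcc 0 1 (by omega) (by omega) (by omega)
  have b2 := hcc 0 2 (by omega) (by omega) (by omega)
  have b3 := hcc 1 2 (by omega) (by omega) (by omega)
  have c1 := (hforb (3 * φ.length + 3 * j + 0) (by omega)).1
  have c2 := (hforb (3 * φ.length + 3 * j + 1) (by omega)).1
  have c3 := (hforb (3 * φ.length + 3 * j + 2) (by omega)).1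
  have d1 := (hforb t.1 (by omega)).2 s1
  have d2 := (hforb t.2.1 (by omega)).2 s2
  have d3 := (hforb t.2.2 (by omega)).2 s3
  rintro ⟨e1, e2⟩
  simp only [decide_eq_decide] at e1 e2
  omega

/-! ### The other direction -/

theorem exists_col (h : NAEN φ) : ∃ col : ℕ → ℕ, ∀ b, b < 6 * φ.length →
    col b ≤ 2 ∧ forb φ b (col b) = false ∧
    ∀ c, c < 6 * φ.length → bad φ b c = true → col b ≠ col c := by
  classical
  obtain ⟨τ, hτ⟩ := h
  have hc : ∀ j, j < φ.length → ∃ a : ℕ → ℕ, a 0 ≤ 2 ∧ a 1 ≤ 2 ∧ a 2 ≤ 2 ∧ a 0 ≠ a 1 ∧ a 0 ≠ a 2 ∧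
      a 1 ≠ a 2 ∧ a 0 ≠ (if τ (φ.getD j (0, 0, 0)).1 = true then 1 else 0) ∧
      a 1 ≠ (if τ (φ.getD j (0, 0, 0)).2.1 = true then 1 else 0) ∧
      a 2 ≠ (if τ (φ.getD j (0, 0, 0)).2.2 = true then 1 else 0) := by
    intro j hj
    have h1 : φ.getD j (0, 0, 0) ∈ φ := by
      rw [List.getD_eq_getElem _ _ hj]
      exact List.getElem_mem _
    have h2 := hτ _ h1
    generalize φ.getD j (0, 0, 0) = t at h2
    cases h3 : τ t.1 <;> cases h4 : τ t.2.1 <;> cases h5 : τ t.2.2 <;>
      rw [h3, h4, h5] at h2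
    · exact absurd ⟨rfl, rfl⟩ h2
    · exact ⟨fun k => if k = 0 then 1 else if k = 1 then 2 else 0, by simp⟩
    · exact ⟨fun k => if k = 0 then 1 else if k = 1 then 0 else 2, by simp⟩
    · exact ⟨fun k => if k = 0 then 1 else if k = 1 then 0 else 2, by simp⟩
    · exact ⟨fun k => if k = 0 then 0 else if k = 1 then 1 else 2, by simp⟩
    · exact ⟨fun k => if k = 0 then 0 else if k = 1 then 1 else 2, by simp⟩
    · exact ⟨fun k => if k = 0 then 0 else if k = 1 then 2 else 1, by simp⟩
    · exact absurd ⟨rfl, rfl⟩ h2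
  choose! a ha using hc
  have hcl : ∀ b, 3 * φ.length ≤ b → b < 6 * φ.length → b / 3 - φ.length < φ.length := by
    intro b h1 h2
    omega
  refine ⟨fun b => if b < 3 * φ.length then (if τ b = true then 1 else 0) else
    a (b / 3 - φ.length) (b % 3), ?_⟩
  intro b hb
  have hle : (if b < 3 * φ.length then (if τ b = true then 1 else 0) else
      a (b / 3 - φ.length) (b % 3)) ≤ 2 ∧ (b < 3 * φ.length →
      (if b < 3 * φ.length then (if τ b = true then 1 else 0) else
      a (b / 3 - φ.length) (b % 3)) ≤ 1) := by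
    by_cases h1 : b < 3 * φ.length
    · rw [if_pos h1]
      split_ifs <;> simp
    · rw [if_neg h1]
      obtain ⟨g0, g1, g2, _⟩ := ha _ (hcl b (by omega) hb)
      have h3 : b % 3 = 0 ∨ b % 3 = 1 ∨ b % 3 = 2 := by omega
      refine ⟨?_, fun h => absurd h h1⟩
      rcases h3 with h3 | h3 | h3 <;> rw [h3]
      · exact g0
      · exact g1
      · exact g2
  refine ⟨hle.1, ?_, ?_⟩
  · rw [← Bool.not_eq_true]
    unfold forb
    simp only [Bool.or_eq_true, Bool.and_eq_true, decide_eq_true_eq, not_or, not_and, not_le]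
    refine ⟨by have := hle.1; omega, fun h => ?_⟩
    have := hle.2 h
    omega
  · have key : ∀ b c, b < 3 * φ.length → 3 * φ.length ≤ c → c < 6 * φ.length → va φ c = b →
        (if τ b = true then 1 else 0) ≠ a (c / 3 - φ.length) (c % 3) := by
      intro b c _ h2 h3 h4
      obtain ⟨_, _, _, _, _, _, g0, g1, g2⟩ := ha _ (hcl c h2 h3)
      have h5 : c % 3 = 0 ∨ c % 3 = 1 ∨ c % 3 = 2 := by omega
      unfold va at h4
      rcases h5 with h5 | h5 | h5
      · rw [h5, if_pos rfl] at h4
        rw [h5, ← h4]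
        exact g0.symm
      · rw [h5, if_neg (by omega), if_pos rfl] at h4
        rw [h5, ← h4]
        exact g1.symm
      · rw [h5, if_neg (by omega), if_neg (by omega)] at h4
        rw [h5, ← h4]
        exact g2.symm
    intro c hc hbc
    unfold bad at hbc
    simp only [Bool.or_eq_true, Bool.and_eq_true, Bool.not_eq_true', decide_eq_true_eq,
      decide_eq_false_iff_not] at hbc
    simp only
    rcases hbc with ⟨⟨⟨h1, h2⟩, h3⟩, h4⟩ | ⟨⟨h1, h2⟩, h3⟩ | ⟨⟨h1, h2⟩, h3⟩
    · rw [if_neg (by omega), if_neg (by omega), ← h4]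
      obtain ⟨_, _, _, g0, g1, g2, _⟩ := ha _ (hcl b h1 hb)
      have h5 : b % 3 = 0 ∨ b % 3 = 1 ∨ b % 3 = 2 := by omega
      have h6 : c % 3 = 0 ∨ c % 3 = 1 ∨ c % 3 = 2 := by omega
      rcases h5 with h5 | h5 | h5 <;> rcases h6 with h6 | h6 | h6 <;> rw [h5, h6]
      · omega
      · exact g0
      · exact g1
      · exact g0.symm
      · omega
      · exact g2
      · exact g1.symm
      · exact g2.symm
      · omega
    · rw [if_pos h1, if_neg (show ¬ c < 3 * φ.length by omega)]
      exact key b c h1 h2 hc h3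
    · rw [if_neg (show ¬ b < 3 * φ.length by omega), if_pos h1]
      exact (key c b h1 h2 hb h3).symm

theorem dg_le_one {v : Fin (vs φ).length} (a : Lb) (h : ∀ u, (gr φ).Adj v u → lb φ u = a) :
    dg (gr φ) v ≤ 1 := by
  classical
  unfold dg
  rw [Finset.card_le_one]
  intro u hu w hw
  rw [Finset.mem_filter] at hu hw
  exact lb_inj ((h u hu.2).trans (h w hw.2).symm)

theorem nice : Nice (gr φ) := by
  have key : ∀ u v, ad0 φ (lb φ u) (lb φ v) = true → ∃ w, w ≠ v ∧ (gr φ).Adj u w := by
    intro u v huv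
    have hu := lb_mem φ u
    have hv := lb_mem φ v
    rw [mem_vs] at hu
    rw [ad0_iff] at huv
    rcases huv with ⟨h1, _⟩ | ⟨h1, h2, h3⟩
    · have hu' : (lb φ u).2.1 < 6 * φ.length ∧ (lb φ u).2.2 = (0, 0) := by
        rcases hu with h | h | h | h
        · exact h.2
        · omega
        · omega
        · omega
      obtain ⟨w1, hw1⟩ := exists_lb (mem_pad hu'.1)
      obtain ⟨w2, hw2⟩ := exists_lb (mem_blocker (i := 0) (r := 0) hu'.1 (by omega) (by omega))
      have ha : ∀ w, (lb φ w).1 = 1 ∨ (lb φ w).1 = 2 → (lb φ w).2.1 = (lb φ u).2.1 →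
          (gr φ).Adj u w := by
        intro w h4 h5
        rw [adj_iff]
        unfold ad
        rw [Bool.or_eq_true]
        left
        rw [ad0_iff]
        exact Or.inl ⟨h1, Or.inr ⟨h4, h5⟩⟩
      by_cases hw : w1 = v
      · refine ⟨w2, ?_, ha w2 (by rw [hw2]; simp) (by rw [hw2])⟩
        rintro rfl
        rw [hw, hw2] at hw1
        simp at hw1
      · exact ⟨w1, hw, ha w1 (by rw [hw1]; simp) (by rw [hw1])⟩
    · have hu' : (lb φ u).2.1 < 6 * φ.length := by
        rcases hu with h | h | h | h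
        · exact h.2.1
        · exact h.2.1
        · exact h.2.1
        · exact h.2.1
      obtain ⟨w1, hw1⟩ := exists_lb (mem_base hu')
      refine ⟨w1, ?_, ?_⟩
      · rintro rfl
        rw [hw1] at h2
        simp at h2
      · rw [adj_iff, hw1]
        unfold ad
        rw [Bool.or_eq_true]
        right
        rw [ad0_iff]
        exact Or.inl ⟨rfl, Or.inr ⟨Or.inr h1, rfl⟩⟩
  intro u v huv
  rw [adj_iff] at huv
  unfold ad at huv
  rw [Bool.or_eq_true] at huv
  rcases huv with h | h
  · obtain ⟨w, hw⟩ := key u v h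
    exact ⟨w, Or.inl hw⟩
  · obtain ⟨w, hw⟩ := key v u h
    exact ⟨w, Or.inr hw⟩

theorem labelling_of_nae (h : NAEN φ) : ∃ l : Sym2 (Fin (vs φ).length) → ℕ,
    IsProper (gr φ) l ∧ labelSum (gr φ) l ≤ numE (gr φ) + T φ := by
  classical
  by_cases h0 : φ.length = 0
  · have hemp : IsEmpty (Fin (vs φ).length) := by
      refine ⟨fun v => ?_⟩
      have := lb_mem φ v
      rw [mem_vs] at this
      omega
    refine ⟨fun _ => 1, ⟨fun _ _ => le_rfl, fun u => hemp.elim u⟩, ?_⟩
    rw [labelSum_eq (fun _ _ => le_rfl)]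
    unfold labelSum
    simp
  obtain ⟨col, hcol⟩ := exists_col h
  have hvb : ∀ b, b < 6 * φ.length → ∃ v, lb φ v = (0, b, 0, 0) := fun b hb =>
    exists_lb (mem_base hb)
  have hvp : ∀ b, b < 6 * φ.length → ∃ v, lb φ v = (1, b, b, 0) := fun b hb =>
    exists_lb (mem_pad hb)
  obtain ⟨v0, _⟩ := hvb 0 (by omega)
  have hne : Nonempty (Fin (vs φ).length) := ⟨v0⟩
  choose! vb hvb using hvb
  choose! vp hvp using hvp
  set w : Sym2 (Fin (vs φ).length) → ℕ := fun e =>
    ∑ b ∈ Finset.range (6 * φ.length), if e = s(vb b, vp b) then col b else 0 with hw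
  have hl1 : ∀ e ∈ (gr φ).edgeSet, 1 ≤ (fun e => 1 + w e) e := fun e _ => by
    simp
  have hwl : (fun e => (fun e => 1 + w e) e - 1) = w := by
    funext e
    simp only
    omega
  have hadjp : ∀ b, b < 6 * φ.length → (gr φ).Adj (vb b) (vp b) := by
    intro b hb
    rw [adj_iff, hvb b hb, hvp b hb]
    unfold ad
    rw [Bool.or_eq_true]
    left
    rw [ad0_iff]
    exact Or.inl ⟨rfl, Or.inr ⟨Or.inl rfl, rfl⟩⟩
  have hcw : ∀ v, colour (gr φ) w v = ∑ b ∈ Finset.range (6 * φ.length),
      ∑ u ∈ Finset.univ.filter (fun u => (gr φ).Adj v u),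
        if s(v, u) = s(vb b, vp b) then col b else 0 := by
    intro v
    unfold colour
    rw [hw]
    exact Finset.sum_comm
  have hzero : ∀ v b, v ≠ vb b → v ≠ vp b →
      (∑ u ∈ Finset.univ.filter (fun u => (gr φ).Adj v u),
        if s(v, u) = s(vb b, vp b) then col b else 0) = 0 := by
    intro v b h1 h2
    refine Finset.sum_eq_zero fun u _ => ?_
    rw [if_neg]
    rw [Sym2.eq_iff]
    rintro (⟨h3, _⟩ | ⟨h3, _⟩)
    · exact h1 h3
    · exact h2 h3
  have hW0 : ∀ v b, b < 6 * φ.length → lb φ v = (0, b, 0, 0) → colour (gr φ) w v = col b := by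
    intro v b hb hv
    have hvv : v = vb b := lb_inj (hv.trans (hvb b hb).symm)
    rw [hcw, Finset.sum_eq_single b]
    · rw [Finset.sum_eq_single (vp b)]
      · rw [hvv, if_pos rfl]
      · intro u _ hu
        rw [if_neg]
        rw [Sym2.eq_iff]
        rintro (⟨_, h3⟩ | ⟨h3, _⟩)
        · exact hu h3
        · have h4 := hvp b hb
          rw [← h3, hv] at h4
          simp at h4
      · intro h3
        exfalso
        rw [Finset.mem_filter] at h3
        rw [hvv] at h3
        exact h3 ⟨Finset.mem_univ _, hadjp b hb⟩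
    · intro c hc hcb
      rw [Finset.mem_range] at hc
      refine hzero v c ?_ ?_
      · rintro rfl
        rw [hvb c hc] at hv
        simp only [Prod.mk.injEq] at hv
        exact hcb hv.2.1
      · rintro rfl
        rw [hvp c hc] at hv
        simp at hv
    · intro h3
      exact absurd (Finset.mem_range.2 hb) h3
  have hW1 : ∀ v b x, lb φ v = (1, b, x, 0) → colour (gr φ) w v ≤ 2 := by
    intro v b x hv
    rw [hcw]
    have h1 : ∀ c ∈ Finset.range (6 * φ.length), c ≠ b →
        (∑ u ∈ Finset.univ.filter (fun u => (gr φ).Adj v u),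
          if s(v, u) = s(vb c, vp c) then col c else 0) = 0 := by
      intro c hc hcb
      rw [Finset.mem_range] at hc
      refine hzero v c ?_ ?_
      · rintro rfl
        rw [hvb c hc] at hv
        simp at hv
      · rintro rfl
        rw [hvp c hc] at hv
        simp only [Prod.mk.injEq] at hv
        exact hcb hv.2.1
    by_cases hb : b < 6 * φ.length
    · rw [Finset.sum_eq_single b h1 (fun h => absurd (Finset.mem_range.2 hb) h)]
      have h2 : ∀ u ∈ Finset.univ.filter (fun u => (gr φ).Adj v u), u ≠ vb b →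
          (if s(v, u) = s(vb b, vp b) then col b else 0) = 0 := by
        intro u _ hu
        rw [if_neg]
        rw [Sym2.eq_iff]
        rintro (⟨h3, _⟩ | ⟨_, h3⟩)
        · rw [h3, hvb b hb] at hv
          simp at hv
        · exact hu h3
      have hle : (if s(v, vb b) = s(vb b, vp b) then col b else 0) ≤ 2 := by
        have := (hcol b hb).1
        split_ifs <;> omega
      by_cases hm : vb b ∈ Finset.univ.filter (fun u => (gr φ).Adj v u)
      · rw [Finset.sum_eq_single (vb b) h2 (fun h => absurd hm h)]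
        exact hle
      · rw [Finset.sum_eq_zero fun u hu => h2 u hu (fun h => hm (h ▸ hu))]
        omega
    · rw [Finset.sum_eq_zero fun c hc => h1 c hc (by
        rw [Finset.mem_range] at hc
        omega)]
      omega
  have hW2 : ∀ v, 2 ≤ (lb φ v).1 → colour (gr φ) w v = 0 := by
    intro v hv
    rw [hcw]
    refine Finset.sum_eq_zero fun c hc => ?_
    rw [Finset.mem_range] at hc
    refine hzero v c ?_ ?_
    · rintro rfl
      rw [hvb c hc] at hv
      simp at hv
    · rintro rfl
      rw [hvp c hc] at hv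
      simp at hv
  have hC : ∀ v, colour (gr φ) (fun e => 1 + w e) v = dg (gr φ) v + colour (gr φ) w v := by
    intro v
    rw [colour_eq hl1, hwl]
  have hprop : ∀ u v, ad0 φ (lb φ u) (lb φ v) = true →
      colour (gr φ) (fun e => 1 + w e) u ≠ colour (gr φ) (fun e => 1 + w e) v := by
    intro u v huv
    have hu := mem_vs.1 (lb_mem φ u)
    have hv := mem_vs.1 (lb_mem φ v)
    rw [hC, hC]
    generalize hlu : lb φ u = a at huv hu
    generalize hlv : lb φ v = c at huv hv
    obtain ⟨t, b, x, y⟩ := a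
    obtain ⟨t', b', x', y'⟩ := c
    rw [ad0_iff] at huv
    simp only [Prod.mk.injEq] at huv hu hv
    rcases huv with ⟨rfl, huv⟩ | ⟨rfl, h3, rfl, rfl, rfl⟩
    · have hu' : b < 6 * φ.length ∧ x = 0 ∧ y = 0 := by
        rcases hu with h | h | h | h
        · exact h.2
        · omega
        · omega
        · omega
      obtain ⟨hb, rfl, rfl⟩ := hu'
      have hD := D_big hb
      rw [dg_base hb hlu, hW0 u b hb hlu]
      rcases huv with ⟨rfl, hbb⟩ | ⟨h1 | h1, rfl⟩
      · have hv' : b' < 6 * φ.length ∧ x' = 0 ∧ y' = 0 := by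
          rcases hv with h | h | h | h
          · exact h.2
          · omega
          · omega
          · omega
        obtain ⟨hb', rfl, rfl⟩ := hv'
        rw [dg_base hb' hlv, hW0 v b' hb' hlv]
        have := (hcol b hb).2.2 b' hb' hbb
        omega
      · subst h1
        have hy' : y' = 0 := by omega
        subst hy'
        have h2 := hW1 v b' x' hlv
        have h3 := dg_le_one (φ := φ) (v := v) (0, b', 0, 0) (by
          intro z hz
          rw [adj_iff, hlv] at hz
          have hz' := mem_vs.1 (lb_mem φ z)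
          generalize lb φ z = d at hz hz'
          obtain ⟨p, q, r, s⟩ := d
          unfold ad at hz
          simp only [Bool.or_eq_true, ad0_iff, Prod.mk.injEq] at hz hz' ⊢
          omega)
        omega
      · subst h1
        have h2 := hW2 v (by rw [hlv])
        by_cases hf : forb φ b' x' = true
        · have hxy : x' < T φ + 1 ∧ y' < T φ + 1 := by omega
          rw [dg_blocker hb hxy.1 hxy.2 hf hlv, h2]
          have h4 := (hcol b' hb).2.1
          intro h5
          have h6 : col b' = x' := by omega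
          rw [h6, hf] at h4
          exact absurd h4 (by simp)
        · have h3 := dg_le_one (φ := φ) (v := v) (0, b', 0, 0) (by
            intro z hz
            rw [adj_iff, hlv] at hz
            have hz' := mem_vs.1 (lb_mem φ z)
            generalize lb φ z = d at hz hz'
            obtain ⟨p, q, r, s⟩ := d
            unfold ad at hz
            simp only [Bool.or_eq_true, ad0_iff, Prod.mk.injEq] at hz hz' ⊢
            rcases hz with (h | ⟨_, h7, h8, h9, h10⟩) | h
            · omega
            · exfalso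
              rw [h8, h9] at hz'
              rcases hz' with h | h | h | h
              · omega
              · omega
              · omega
              · exact hf h.2.2.2.2.1
            · omega)
          omega
    · have hv' : b' < 6 * φ.length ∧ x' < T φ + 1 ∧ y' < T φ + 1 ∧ forb φ b' x' = true := by
        rcases hv with h | h | h | h
        · omega
        · omega
        · omega
        · exact ⟨h.2.1, h.2.2.1, h.2.2.2.1, h.2.2.2.2.1⟩
      obtain ⟨hb, hx, hy, hf⟩ := hv'
      have hD := D_big hb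
      rw [dg_blocker hb hx hy hf hlu, hW2 v (by rw [hlv]; simp only; omega)]
      have h5 := dg_le_one (φ := φ) (v := v) (2, b', x', y') (by
        intro z hz
        rw [adj_iff, hlv] at hz
        have hz' := mem_vs.1 (lb_mem φ z)
        generalize lb φ z = d at hz hz'
        obtain ⟨p, q, r, s⟩ := d
        unfold ad at hz
        simp only [Bool.or_eq_true, ad0_iff, Prod.mk.injEq] at hz hz' ⊢
        omega)
      omega
  refine ⟨fun e => 1 + w e, ⟨hl1, ?_⟩, ?_⟩
  · intro u v huv
    rw [adj_iff] at huv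
    unfold ad at huv
    rw [Bool.or_eq_true] at huv
    rcases huv with h | h
    · exact hprop u v h
    · exact (hprop v u h).symm
  · rw [labelSum_eq hl1, hwl]
    refine Nat.add_le_add_left ?_ _
    have h1 : labelSum (gr φ) w ≤ ∑ b ∈ Finset.range (6 * φ.length), 2 := by
      unfold labelSum
      rw [hw, Finset.sum_comm]
      refine Finset.sum_le_sum fun b hb => ?_
      rw [Finset.mem_range] at hb
      rw [Finset.sum_ite_eq']
      have := (hcol b hb).1
      split_ifs <;> omega
    rw [Finset.sum_const, Finset.card_range, smul_eq_mul] at h1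
    unfold T
    omega

/-- the number of ordered pairs of adjacent vertices -/
def cntE (φ : Fm) : ℕ :=
  ((vs φ).map fun a => ((vs φ).map fun c => if ad φ a c = true then 1 else 0).sum).sum

theorem cntE_eq (φ : Fm) : cntE φ = 2 * numE (gr φ) := by
  classical
  rw [← two_numE]
  unfold cntE
  rw [← Fin.sum_univ_fun_getElem]
  refine Finset.sum_congr rfl fun v _ => ?_
  rw [← Fin.sum_univ_fun_getElem]
  unfold dg
  rw [Finset.card_filter]
  refine Finset.sum_congr rfl fun u _ => ?_
  by_cases h : (gr φ).Adj v u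
  · rw [if_pos h]
    exact if_pos h
  · rw [if_neg h]
    exact if_neg h

end

end Pool.Agent.X65.MS
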