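import Pool.Agent.X65.MS.Cor
import Pool.Agent.X249.Kit
import Pool.Agent.H671R2.OOF.NP

/-!
# The reduction is computable in polynomial time
-/

set_option autoImplicit false

namespace Pool.Agent.X65.MS

open Pool.Agent.NPC Pool.Agent.NPC.R671 Pool.Agent.H671R2.Ord Pool.Agent.X130

section

variable {α : Type} [TEnc α]

theorem poly_va {φ : α → Fm} {b : α → ℕ} (hφ : NPC.Poly φ) (hb : NPC.Poly b) :
    NPC.Poly (fun x => va (φ x) (b x)) := by
  unfold va
  fun_prop

attribute [local fun_prop] poly_va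

theorem poly_bad {φ : α → Fm} {b c : α → ℕ} (hφ : NPC.Poly φ) (hb : NPC.Poly b)
    (hc : NPC.Poly c) : NPC.Poly (fun x => bad (φ x) (b x) (c x)) := by
  unfold bad
  fun_prop

theorem poly_T {φ : α → Fm} (hφ : NPC.Poly φ) : NPC.Poly (fun x => T (φ x)) := by
  unfold T
  fun_prop

attribute [local fun_prop] poly_bad poly_T

theorem poly_D {φ : α → Fm} (hφ : NPC.Poly φ) : NPC.Poly (fun x => D (φ x)) := by
  unfold D
  fun_prop

theorem poly_forb {φ : α → Fm} {b i : α → ℕ} (hφ : NPC.Poly φ) (hb : NPC.Poly b)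
    (hi : NPC.Poly i) : NPC.Poly (fun x => forb (φ x) (b x) (i x)) := by
  unfold forb
  fun_prop

theorem poly_ad0 {φ : α → Fm} {a c : α → Lb} (hφ : NPC.Poly φ) (ha : NPC.Poly a)
    (hc : NPC.Poly c) : NPC.Poly (fun x => ad0 (φ x) (a x) (c x)) := by
  unfold ad0
  fun_prop

attribute [local fun_prop] poly_D poly_forb poly_ad0

theorem poly_ad {φ : α → Fm} {a c : α → Lb} (hφ : NPC.Poly φ) (ha : NPC.Poly a)
    (hc : NPC.Poly c) : NPC.Poly (fun x => ad (φ x) (a x) (c x)) := by
  unfold ad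
  fun_prop

end

theorem u6 : UPoly (fun φ : Fm => 6 * φ.length) := (UPoly.const 6).mul (UPoly.length NPC.Poly.id)

theorem uT : UPoly (fun φ : Fm => T φ) := (UPoly.const 12).mul (UPoly.length NPC.Poly.id)

theorem uD : UPoly (fun φ : Fm => D φ) :=
  u6.add ((uT.add (UPoly.const 1)).mul (uT.add (UPoly.const 1)))

attribute [local fun_prop] poly_bad poly_T poly_D poly_forb poly_ad

theorem poly_vs : NPC.Poly vs := by
  have r6 : NPC.Poly (fun φ : Fm => List.range (6 * φ.length)) := u6.range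
  have rT : NPC.Poly (fun φ : Fm => List.range (T φ + 1)) := (uT.add (UPoly.const 1)).range
  have rD : NPC.Poly (fun φ : Fm => List.range (D φ + T φ)) := (uD.add uT).range
  unfold vs
  refine NPC.Poly.append ?_ (NPC.Poly.append ?_ (NPC.Poly.append ?_ ?_))
  · exact NPC.Poly.map (F := fun (_ : Fm) b => ((0, b, 0, 0) : Lb)) r6 (by fun_prop)
  · refine NPC.Poly.flatMap (F := fun (φ : Fm) b =>
      ((List.range (6 * φ.length)).filter fun c => !bad φ b c).map fun c => ((1, b, c, 0) : Lb))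
      r6 ?_
    refine NPC.Poly.map (l := fun x : Fm × ℕ => (List.range (6 * x.1.length)).filter
      fun c => !bad x.1 x.2 c) (F := fun x c => ((1, x.2, c, 0) : Lb)) ?_ (by fun_prop)
    exact NPC.Poly.filter (p := fun (x : Fm × ℕ) c => !bad x.1 x.2 c)
      (r6.comp (NPC.Poly.fst NPC.Poly.id)) (by fun_prop)
  · refine NPC.Poly.flatMap (F := fun (φ : Fm) b => (List.range (T φ + 1)).flatMap fun i =>
      (List.range (T φ + 1)).map fun r => ((2, b, i, r) : Lb)) r6 ?_
    refine NPC.Poly.flatMap (l := fun x : Fm × ℕ => List.range (T x.1 + 1)) (F := fun x i =>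
      (List.range (T x.1 + 1)).map fun r => ((2, x.2, i, r) : Lb))
      (rT.comp (NPC.Poly.fst NPC.Poly.id)) ?_
    exact NPC.Poly.map (l := fun x : (Fm × ℕ) × ℕ => List.range (T x.1.1 + 1))
      (F := fun x r => ((2, x.1.2, x.2, r) : Lb))
      (rT.comp (NPC.Poly.fst (NPC.Poly.fst NPC.Poly.id))) (by fun_prop)
  · refine NPC.Poly.flatMap (F := fun (φ : Fm) b => (List.range (T φ + 1)).flatMap fun i =>
      (List.range (T φ + 1)).flatMap fun r => ((List.range (D φ + T φ)).filter fun s =>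
        forb φ b i && decide (s < D φ + i - 1)).map fun s => ((3 + s, b, i, r) : Lb)) r6 ?_
    refine NPC.Poly.flatMap (l := fun x : Fm × ℕ => List.range (T x.1 + 1)) (F := fun x i =>
      (List.range (T x.1 + 1)).flatMap fun r => ((List.range (D x.1 + T x.1)).filter fun s =>
        forb x.1 x.2 i && decide (s < D x.1 + i - 1)).map fun s => ((3 + s, x.2, i, r) : Lb))
      (rT.comp (NPC.Poly.fst NPC.Poly.id)) ?_
    refine NPC.Poly.flatMap (l := fun x : (Fm × ℕ) × ℕ => List.range (T x.1.1 + 1))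
      (F := fun x r => ((List.range (D x.1.1 + T x.1.1)).filter fun s =>
        forb x.1.1 x.1.2 x.2 && decide (s < D x.1.1 + x.2 - 1)).map
          fun s => ((3 + s, x.1.2, x.2, r) : Lb))
      (rT.comp (NPC.Poly.fst (NPC.Poly.fst NPC.Poly.id))) ?_
    refine NPC.Poly.map (l := fun x : ((Fm × ℕ) × ℕ) × ℕ =>
      (List.range (D x.1.1.1 + T x.1.1.1)).filter fun s =>
        forb x.1.1.1 x.1.1.2 x.1.2 && decide (s < D x.1.1.1 + x.1.2 - 1))
      (F := fun x s => ((3 + s, x.1.1.2, x.1.2, x.2) : Lb)) ?_ (by fun_prop)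
    exact NPC.Poly.filter (p := fun (x : ((Fm × ℕ) × ℕ) × ℕ) s =>
        forb x.1.1.1 x.1.1.2 x.1.2 && decide (s < D x.1.1.1 + x.1.2 - 1))
      (rD.comp (NPC.Poly.fst (NPC.Poly.fst (NPC.Poly.fst NPC.Poly.id)))) (by fun_prop)

theorem poly_mat : NPC.Poly (fun φ => adjMatrix (gr φ)) := by
  have h1 : NPC.Poly (fun φ : Fm => (vs φ).map (fun u => (vs φ).map (fun w => ad φ u w))) := by
    refine NPC.Poly.map (F := fun φ u => (vs φ).map (fun w => ad φ u w)) poly_vs ?_
    refine NPC.Poly.map (l := fun x : Fm × Lb => vs x.1)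
      (F := fun x w => ad x.1 x.2 w) (poly_vs.comp (NPC.Poly.fst NPC.Poly.id)) ?_
    exact poly_ad (by fun_prop) (by fun_prop) (by fun_prop)
  exact h1.congr fun φ => (adjMatrix_listGraph _ _ _ _).symm

theorem poly_cntE : NPC.Poly cntE := by
  unfold cntE
  refine NPC.Poly.sum ?_
  refine NPC.Poly.map (F := fun φ a => ((vs φ).map fun c => if ad φ a c = true then 1 else 0).sum)
    poly_vs ?_
  refine NPC.Poly.sum ?_
  refine NPC.Poly.map (l := fun x : Fm × Lb => vs x.1)
    (F := fun x c => if ad x.1 x.2 c = true then 1 else 0)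
    (poly_vs.comp (NPC.Poly.fst NPC.Poly.id)) ?_
  have h : NPC.Poly (fun x : (Fm × Lb) × Lb => ad x.1.1 x.1.2 x.2) :=
    poly_ad (by fun_prop) (by fun_prop) (by fun_prop)
  fun_prop

/-- the bound on the label sum -/
def bd (φ : Fm) : ℕ := cntE φ / 2 + T φ

theorem bd_eq (φ : Fm) : bd φ = numE (gr φ) + T φ := by
  unfold bd
  rw [cntE_eq, Nat.mul_div_cancel_left _ (by omega)]

theorem poly_bd : NPC.Poly bd := by
  unfold bd
  exact NPC.Poly.add (NPC.Poly.div poly_cntE (NPC.Poly.const 2)) (poly_T NPC.Poly.id)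

theorem poly_out : NPC.Poly (fun φ => (adjMatrix (gr φ), bd φ)) := NPC.Poly.pair poly_mat poly_bd

/-- The decision problem MIN-SUM: the input is the adjacency matrix of a nice graph, and a
number. -/
def MinSum (x : List (List Bool) × ℕ) : Prop :=
  ∃ (n : ℕ) (G : SimpleGraph (Fin n)), adjMatrix G = x.1 ∧ Nice G ∧
    ∃ l : Sym2 (Fin n) → ℕ, IsProper G l ∧ labelSum G l ≤ x.2

theorem inj_aux {P : ∀ {n : ℕ}, SimpleGraph (Fin n) → Prop} {n m : ℕ} {G : SimpleGraph (Fin n)}
    {H : SimpleGraph (Fin m)} (h : adjMatrix G = adjMatrix H) (hG : P G) : P H := by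
  have hnm : n = m := by rw [← length_adjMatrix G, h, length_adjMatrix]
  subst hnm
  rw [← adjMatrix_inj h]
  exact hG

theorem hardI_minSum : HardI MinSum := by
  refine (hardPr_NAEN.trans (Pr' := fun _ => True) poly_out (fun _ _ => trivial)
    (Q := MinSum) fun φ hs => ?_).toHardI
  constructor
  · intro h
    obtain ⟨l, h1, h2⟩ := labelling_of_nae h
    exact ⟨_, gr φ, rfl, nice, l, h1, by simp only; rw [bd_eq]; exact h2⟩
  · rintro ⟨n, G, hG, _, hc⟩
    simp only at hG hc
    have h1 : ∃ l : Sym2 (Fin (vs φ).length) → ℕ, IsProper (gr φ) l ∧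
        labelSum (gr φ) l ≤ bd φ :=
      inj_aux (P := fun {n} G => ∃ l : Sym2 (Fin n) → ℕ, IsProper G l ∧ labelSum G l ≤ bd φ) hG hc
    obtain ⟨l, h2, h3⟩ := h1
    rw [bd_eq] at h3
    exact nae_of_labelling hs h2 h3

end Pool.Agent.X65.MS
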