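import Pool.Agent.X65.MS.Defs
import Pool.Agent.H671R2.PolyAuto
import Pool.Agent.X130.Nae

/-!
# The graph of a monotone not-all-equal formula

Base vertices are the variables (`b < 3 N`) and three vertices for each clause (`3 N ≤ b < 6 N`).
Every base vertex has degree `D` and neighbours of degree `D + i` for every forbidden value `i`, so
many that their colours cannot all be changed.
-/

set_option autoImplicit false

namespace Pool.Agent.X65.MS

open Pool.Agent.NPC Pool.Agent.NPC.R671 Pool.Agent.X130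

/-- formulas -/
abbrev Fm : Type := List (ℕ × ℕ × ℕ)

/-- labels of the vertices -/
abbrev Lb : Type := ℕ × ℕ × ℕ × ℕ

/-- the variable at the clause vertex `b` -/
def va (φ : Fm) (b : ℕ) : ℕ :=
  if b % 3 = 0 then (φ.getD (b / 3 - φ.length) (0, 0, 0)).1
  else if b % 3 = 1 then (φ.getD (b / 3 - φ.length) (0, 0, 0)).2.1
  else (φ.getD (b / 3 - φ.length) (0, 0, 0)).2.2

/-- adjacency of base vertices -/
def bad (φ : Fm) (b c : ℕ) : Bool :=
  (decide (3 * φ.length ≤ b) && decide (3 * φ.length ≤ c) && !decide (b = c) &&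
    decide (b / 3 = c / 3)) ||
  ((decide (b < 3 * φ.length) && decide (3 * φ.length ≤ c) && decide (va φ c = b)) ||
  (decide (c < 3 * φ.length) && decide (3 * φ.length ≤ b) && decide (va φ b = c)))

/-- the budget -/
def T (φ : Fm) : ℕ := 12 * φ.length

/-- the degree of the base vertices -/
def D (φ : Fm) : ℕ := 6 * φ.length + (T φ + 1) * (T φ + 1)

/-- forbidden values -/
def forb (φ : Fm) (b i : ℕ) : Bool :=
  decide (3 ≤ i) || (decide (b < 3 * φ.length) && decide (2 ≤ i))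

/-- adjacency of labels, one direction -/
def ad0 (φ : Fm) (a c : Lb) : Bool :=
  (decide (a.1 = 0) && ((decide (c.1 = 0) && bad φ a.2.1 c.2.1) ||
    ((decide (c.1 = 1) || decide (c.1 = 2)) && decide (c.2.1 = a.2.1)))) ||
  (decide (a.1 = 2) && (decide (3 ≤ c.1) && decide (c.2 = a.2)))

/-- adjacency of labels -/
def ad (φ : Fm) (a c : Lb) : Bool := ad0 φ a c || ad0 φ c a

/-- labels of the vertices -/
def vs (φ : Fm) : List Lb :=
  ((List.range (6 * φ.length)).map fun b => (0, b, 0, 0)) ++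
  (((List.range (6 * φ.length)).flatMap fun b =>
    ((List.range (6 * φ.length)).filter fun c => !bad φ b c).map fun c => (1, b, c, 0)) ++
  (((List.range (6 * φ.length)).flatMap fun b => (List.range (T φ + 1)).flatMap fun i =>
    (List.range (T φ + 1)).map fun r => (2, b, i, r)) ++
  ((List.range (6 * φ.length)).flatMap fun b => (List.range (T φ + 1)).flatMap fun i =>
    (List.range (T φ + 1)).flatMap fun r => ((List.range (D φ + T φ)).filter fun s =>
      forb φ b i && decide (s < D φ + i - 1)).map fun s => (3 + s, b, i, r))))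

theorem bad_symm (φ : Fm) (b c : ℕ) : bad φ b c = bad φ c b := by
  rw [Bool.eq_iff_iff]
  unfold bad
  simp only [Bool.or_eq_true, Bool.and_eq_true, Bool.not_eq_true', decide_eq_true_eq,
    decide_eq_false_iff_not]
  constructor
  · rintro (⟨⟨⟨h1, h2⟩, h3⟩, h4⟩ | h | h)
    · exact Or.inl ⟨⟨⟨h2, h1⟩, fun h => h3 h.symm⟩, h4.symm⟩
    · exact Or.inr (Or.inr h)
    · exact Or.inr (Or.inl h)
  · rintro (⟨⟨⟨h1, h2⟩, h3⟩, h4⟩ | h | h)
    · exact Or.inl ⟨⟨⟨h2, h1⟩, fun h => h3 h.symm⟩, h4.symm⟩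
    · exact Or.inr (Or.inr h)
    · exact Or.inr (Or.inl h)

theorem bad_irrefl (φ : Fm) (b : ℕ) : bad φ b b = false := by
  rw [← Bool.not_eq_true]
  unfold bad
  simp only [Bool.or_eq_true, Bool.and_eq_true, Bool.not_eq_true', decide_eq_true_eq,
    decide_eq_false_iff_not]
  rintro (⟨⟨_, h3⟩, _⟩ | h | h)
  · exact h3 trivial
  · omega
  · omega

theorem ad0_iff (φ : Fm) (a c : Lb) : ad0 φ a c = true ↔
    (a.1 = 0 ∧ ((c.1 = 0 ∧ bad φ a.2.1 c.2.1 = true) ∨ ((c.1 = 1 ∨ c.1 = 2) ∧ c.2.1 = a.2.1))) ∨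
    (a.1 = 2 ∧ 3 ≤ c.1 ∧ c.2 = a.2) := by
  unfold ad0
  simp only [Bool.or_eq_true, Bool.and_eq_true, decide_eq_true_eq]

theorem ad_symm (φ : Fm) (a b : Lb) : ad φ a b = ad φ b a := by
  unfold ad
  exact Bool.or_comm _ _

theorem ad_irrefl (φ : Fm) (a : Lb) : ad φ a a = false := by
  have h : ad0 φ a a = false := by
    rw [← Bool.not_eq_true, ad0_iff, bad_irrefl]
    rintro (⟨h1, ⟨_, h⟩ | ⟨h, _⟩⟩ | ⟨h1, h2, _⟩)
    · exact absurd h (by simp)
    · omega
    · omega
  unfold ad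
  rw [h, Bool.or_false]

theorem mem_vs {φ : Fm} {a : Lb} : a ∈ vs φ ↔
    (a.1 = 0 ∧ a.2.1 < 6 * φ.length ∧ a.2.2 = (0, 0)) ∨
    (a.1 = 1 ∧ a.2.1 < 6 * φ.length ∧ a.2.2.1 < 6 * φ.length ∧ bad φ a.2.1 a.2.2.1 = false ∧
      a.2.2.2 = 0) ∨
    (a.1 = 2 ∧ a.2.1 < 6 * φ.length ∧ a.2.2.1 < T φ + 1 ∧ a.2.2.2 < T φ + 1) ∨
    (3 ≤ a.1 ∧ a.2.1 < 6 * φ.length ∧ a.2.2.1 < T φ + 1 ∧ a.2.2.2 < T φ + 1 ∧
      forb φ a.2.1 a.2.2.1 = true ∧ a.1 - 3 < D φ + a.2.2.1 - 1) := by
  obtain ⟨t, b, x, y⟩ := a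
  unfold vs
  simp only [List.mem_append, List.mem_map, List.mem_flatMap, List.mem_range, List.mem_filter,
    Bool.and_eq_true, decide_eq_true_eq, Prod.mk.injEq, Bool.not_eq_true']
  constructor
  · rintro (⟨b', hb, h⟩ | ⟨b', hb, c, ⟨hc, hc'⟩, h⟩ | ⟨b', hb, i, hi, r, hr, h⟩ |
      ⟨b', hb, i, hi, r, hr, s, ⟨hs, hs'⟩, h⟩)
    · obtain ⟨rfl, rfl, rfl, rfl⟩ := h
      exact Or.inl ⟨rfl, hb, rfl, rfl⟩
    · obtain ⟨rfl, rfl, rfl, rfl⟩ := h
      exact Or.inr (Or.inl ⟨rfl, hb, hc, hc', rfl⟩)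
    · obtain ⟨rfl, rfl, rfl, rfl⟩ := h
      exact Or.inr (Or.inr (Or.inl ⟨rfl, hb, hi, hr⟩))
    · obtain ⟨rfl, rfl, rfl, rfl⟩ := h
      refine Or.inr (Or.inr (Or.inr ⟨by omega, hb, hi, hr, hs'.1, by omega⟩))
  · rintro (⟨h1, h2, h3, h4⟩ | ⟨h1, h2, h3, h4, h5⟩ | ⟨h1, h2, h3, h4⟩ |
      ⟨h1, h2, h3, h4, h5, h6⟩)
    · exact Or.inl ⟨b, h2, h1.symm, rfl, h3.symm, h4.symm⟩
    · exact Or.inr (Or.inl ⟨b, h2, x, ⟨h3, h4⟩, h1.symm, rfl, rfl, h5.symm⟩)
    · exact Or.inr (Or.inr (Or.inl ⟨b, h2, x, h3, y, h4, h1.symm, rfl, rfl, rfl⟩))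
    · exact Or.inr (Or.inr (Or.inr ⟨b, h2, x, h3, y, h4, t - 3, ⟨by omega, h5, h6⟩, by omega,
        rfl, rfl, rfl⟩))

theorem nodup_vs (φ : Fm) : (vs φ).Nodup := by
  unfold vs
  rw [List.nodup_append', List.nodup_append', List.nodup_append']
  refine ⟨?_, ⟨?_, ⟨?_, ?_, ?_⟩, ?_⟩, ?_⟩
  · exact List.nodup_range.map fun a b h => by simpa using h
  · rw [List.nodup_flatMap]
    refine ⟨fun b _ => (List.nodup_range.filter _).map fun a b h => by simpa using h, ?_⟩
    refine List.nodup_range.imp ?_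
    intro b b' hne x hx hx'
    simp only [List.mem_map] at hx hx'
    obtain ⟨c, _, rfl⟩ := hx
    obtain ⟨c', _, h⟩ := hx'
    simp only [Prod.mk.injEq] at h
    exact hne h.2.1.symm
  · rw [List.nodup_flatMap]
    constructor
    · intro b _
      rw [List.nodup_flatMap]
      refine ⟨fun i _ => List.nodup_range.map fun a b h => by simpa using h, ?_⟩
      refine List.nodup_range.imp ?_
      intro i i' hne x hx hx'
      simp only [List.mem_map] at hx hx'
      obtain ⟨c, _, rfl⟩ := hx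
      obtain ⟨c', _, h⟩ := hx'
      simp only [Prod.mk.injEq] at h
      exact hne h.2.2.1.symm
    · refine List.nodup_range.imp ?_
      intro b b' hne x hx hx'
      simp only [List.mem_flatMap, List.mem_map] at hx hx'
      obtain ⟨_, _, c, _, rfl⟩ := hx
      obtain ⟨_, _, c', _, h⟩ := hx'
      simp only [Prod.mk.injEq] at h
      exact hne h.2.1.symm
  · rw [List.nodup_flatMap]
    constructor
    · intro b _
      rw [List.nodup_flatMap]
      constructor
      · intro i _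
        rw [List.nodup_flatMap]
        refine ⟨fun r _ => (List.nodup_range.filter _).map fun a b h => by simpa using h, ?_⟩
        refine List.nodup_range.imp ?_
        intro r r' hne x hx hx'
        simp only [List.mem_map] at hx hx'
        obtain ⟨c, _, rfl⟩ := hx
        obtain ⟨c', _, h⟩ := hx'
        simp only [Prod.mk.injEq] at h
        exact hne h.2.2.2.symm
      · refine List.nodup_range.imp ?_
        intro i i' hne x hx hx'
        simp only [List.mem_flatMap, List.mem_map] at hx hx'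
        obtain ⟨_, _, c, _, rfl⟩ := hx
        obtain ⟨_, _, c', _, h⟩ := hx'
        simp only [Prod.mk.injEq] at h
        exact hne h.2.2.1.symm
    · refine List.nodup_range.imp ?_
      intro b b' hne x hx hx'
      simp only [List.mem_flatMap, List.mem_map] at hx hx'
      obtain ⟨_, _, _, _, c, _, rfl⟩ := hx
      obtain ⟨_, _, _, _, c', _, h⟩ := hx'
      simp only [Prod.mk.injEq] at h
      exact hne h.2.1.symm
  · intro x hx hx'
    simp only [List.mem_flatMap, List.mem_map] at hx hx'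
    obtain ⟨_, _, _, _, _, _, rfl⟩ := hx
    obtain ⟨_, _, _, _, _, _, _, _, h⟩ := hx'
    simp only [Prod.mk.injEq] at h
    omega
  · intro x hx hx'
    simp only [List.mem_append, List.mem_flatMap, List.mem_map] at hx hx'
    obtain ⟨_, _, _, _, rfl⟩ := hx
    rcases hx' with ⟨_, _, _, _, _, _, h⟩ | ⟨_, _, _, _, _, _, _, _, h⟩ <;>
    · simp only [Prod.mk.injEq] at h
      omega
  · intro x hx hx'
    simp only [List.mem_append, List.mem_flatMap, List.mem_map] at hx hx'
    obtain ⟨_, _, rfl⟩ := hx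
    rcases hx' with ⟨_, _, _, _, h⟩ | ⟨_, _, _, _, _, _, h⟩ | ⟨_, _, _, _, _, _, _, _, h⟩ <;>
    · simp only [Prod.mk.injEq] at h
      omega

/-- the graph -/
def gr (φ : Fm) : SimpleGraph (Fin (vs φ).length) := listGraph (vs φ) (ad φ) (ad_symm φ)
  (ad_irrefl φ)

/-- the label of a vertex -/
def lb (φ : Fm) (i : Fin (vs φ).length) : Lb := (vs φ)[i]

theorem adj_iff (φ : Fm) (i j : Fin (vs φ).length) :
    (gr φ).Adj i j ↔ ad φ (lb φ i) (lb φ j) = true := Iff.rfl

theorem lb_inj {φ : Fm} {i j : Fin (vs φ).length} (h : lb φ i = lb φ j) : i = j :=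
  Fin.ext ((List.Nodup.getElem_inj_iff (nodup_vs φ)).1 h)

theorem exists_lb {φ : Fm} {a : Lb} (h : a ∈ vs φ) : ∃ i, lb φ i = a := by
  obtain ⟨i, hi, h⟩ := List.getElem_of_mem h
  exact ⟨⟨i, hi⟩, h⟩

theorem lb_mem (φ : Fm) (i : Fin (vs φ).length) : lb φ i ∈ vs φ := List.getElem_mem _

/-- the degree, by labels -/
theorem dg_eq (φ : Fm) (v : Fin (vs φ).length) (S : Finset Lb)
    (hS : ∀ a, a ∈ S ↔ a ∈ vs φ ∧ ad φ (lb φ v) a = true) : dg (gr φ) v = S.card := by
  classical
  unfold dg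
  refine Finset.card_bij (fun u _ => lb φ u) ?_ ?_ ?_
  · intro u hu
    rw [Finset.mem_filter] at hu
    exact (hS _).2 ⟨lb_mem φ u, hu.2⟩
  · intro u _ w _ h
    exact lb_inj h
  · intro a ha
    obtain ⟨h1, h2⟩ := (hS a).1 ha
    obtain ⟨u, rfl⟩ := exists_lb h1
    exact ⟨u, Finset.mem_filter.2 ⟨Finset.mem_univ _, h2⟩, rfl⟩

theorem dg_base {φ : Fm} {v : Fin (vs φ).length} {b : ℕ} (hb : b < 6 * φ.length)
    (hv : lb φ v = (0, b, 0, 0)) : dg (gr φ) v = D φ := by
  classical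
  rw [dg_eq φ v (((Finset.range (6 * φ.length)).filter (fun c => bad φ b c = true)).image
      (fun c => ((0, c, 0, 0) : Lb)) ∪
    (((Finset.range (6 * φ.length)).filter (fun c => ¬ bad φ b c = true)).image
      (fun c => ((1, b, c, 0) : Lb)) ∪
    ((Finset.range (T φ + 1)) ×ˢ (Finset.range (T φ + 1))).image
      (fun p => ((2, b, p.1, p.2) : Lb))))]
  · rw [Finset.card_union_of_disjoint, Finset.card_union_of_disjoint, Finset.card_image_of_injective,
      Finset.card_image_of_injective, Finset.card_image_of_injective, Finset.card_product,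
      Finset.card_range, ← Nat.add_assoc, Finset.card_filter_add_card_filter_not,
      Finset.card_range]
    · rfl
    · rintro ⟨a, a'⟩ ⟨c, c'⟩ h
      simpa using h
    · intro a c h
      simpa using h
    · intro a c h
      simpa using h
    · rw [Finset.disjoint_left]
      intro x hx hx'
      rw [Finset.mem_image] at hx hx'
      obtain ⟨_, _, rfl⟩ := hx
      obtain ⟨_, _, h⟩ := hx'
      simp at h
    · rw [Finset.disjoint_left]
      intro x hx hx'
      rw [Finset.mem_image] at hx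
      rw [Finset.mem_union, Finset.mem_image, Finset.mem_image] at hx'
      obtain ⟨_, _, rfl⟩ := hx
      rcases hx' with ⟨_, _, h⟩ | ⟨_, _, h⟩ <;> simp at h
  · rintro ⟨t, c, x, y⟩
    rw [hv, mem_vs]
    unfold ad
    simp only [Finset.mem_union, Finset.mem_image, Finset.mem_filter, Finset.mem_range,
      Finset.mem_product, Prod.mk.injEq, Bool.or_eq_true, ad0_iff, Prod.exists]
    constructor
    · rintro (⟨c', ⟨h1, h2⟩, rfl, rfl, rfl, rfl⟩ | ⟨c', ⟨h1, h2⟩, rfl, rfl, rfl, rfl⟩ |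
        ⟨i, r, ⟨h1, h2⟩, rfl, rfl, rfl, rfl⟩)
      · simp [h1, h2]
      · simp [h1, h2, hb]
      · simp [h1, h2, hb]
    · rintro ⟨h1, h2⟩
      rcases h1 with ⟨rfl, h3, rfl, rfl⟩ | ⟨rfl, h3, h4, h5, rfl⟩ | ⟨rfl, h3, h4, h5⟩ |
        ⟨h3, h4, h5, h6, h7, h8⟩
      · left
        refine ⟨c, ⟨h3, ?_⟩, rfl, rfl, rfl, rfl⟩
        rcases h2 with h2 | h2
        · simpa using h2
        · rw [bad_symm]
          simpa using h2
      · right; left
        have hcb : c = b := by
          rcases h2 with h2 | h2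
          · simpa using h2
          · simp at h2
        subst hcb
        exact ⟨x, ⟨h4, by simp [h5]⟩, rfl, rfl, rfl, rfl⟩
      · right; right
        have hcb : c = b := by
          rcases h2 with h2 | h2
          · simpa using h2
          · simp at h2
        subst hcb
        exact ⟨x, y, ⟨h4, h5⟩, rfl, rfl, rfl, rfl⟩
      · exfalso
        rcases h2 with (⟨_, ⟨h, _⟩ | ⟨h, _⟩⟩ | ⟨h, _⟩) | (⟨h, _⟩ | ⟨_, h, _⟩) <;> omega

theorem D_pos (φ : Fm) : 1 ≤ D φ := by
  unfold D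
  have : 1 * 1 ≤ (T φ + 1) * (T φ + 1) := Nat.mul_le_mul (by omega) (by omega)
  omega

theorem dg_blocker {φ : Fm} {v : Fin (vs φ).length} {b i r : ℕ} (hb : b < 6 * φ.length)
    (hi : i < T φ + 1) (hr : r < T φ + 1) (hf : forb φ b i = true)
    (hv : lb φ v = (2, b, i, r)) : dg (gr φ) v = D φ + i := by
  classical
  have hD := D_pos φ
  rw [dg_eq φ v (insert ((0, b, 0, 0) : Lb) ((Finset.range (D φ + i - 1)).image
      (fun s => ((3 + s, b, i, r) : Lb))))]
  · rw [Finset.card_insert_of_notMem, Finset.card_image_of_injective, Finset.card_range]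
    · omega
    · intro a c h
      simpa using h
    · intro h
      rw [Finset.mem_image] at h
      obtain ⟨s, _, h⟩ := h
      simp at h
  · rintro ⟨t, c, x, y⟩
    rw [hv, mem_vs]
    unfold ad
    simp only [Finset.mem_insert, Finset.mem_image, Finset.mem_range, Prod.mk.injEq,
      Bool.or_eq_true, ad0_iff]
    constructor
    · rintro (⟨rfl, rfl, rfl, rfl⟩ | ⟨s, hs, rfl, rfl, rfl, rfl⟩)
      · simp [hb]
      · refine ⟨Or.inr (Or.inr (Or.inr ⟨by omega, hb, hi, hr, hf, by omega⟩)), Or.inl (Or.inr ?_)⟩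
        simp
    · rintro ⟨h1, h2⟩
      rcases h1 with ⟨rfl, h3, rfl, rfl⟩ | ⟨rfl, h3, h4, h5, rfl⟩ | ⟨rfl, h3, h4, h5⟩ |
        ⟨h3, h4, h5, h6, h7, h8⟩
      · left
        have hcb : c = b := by
          rcases h2 with h2 | h2
          · simp at h2
          · simp at h2
            exact h2.symm
        subst hcb
        exact ⟨rfl, rfl, rfl, rfl⟩
      · exfalso
        simp at h2
      · exfalso
        simp at h2
      · right
        have hh : c = b ∧ x = i ∧ y = r := by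
          rcases h2 with (⟨h, _⟩ | ⟨_, _, h⟩) | (⟨h, _⟩ | ⟨_, h, _⟩)
          · omega
          · exact h
          · omega
          · omega
        obtain ⟨rfl, rfl, rfl⟩ := hh
        exact ⟨t - 3, h8, by omega, rfl, rfl, rfl⟩

end Pool.Agent.X65.MS
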