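import Pool.Agent.X65.RW.DP

/-!
# Proper labellings of trees: dynamic programme

A tree is given by a list of pairs (child, parent), the newest vertex first.
-/

set_option autoImplicit false

namespace Pool.Agent.X65.MS

open Pool.Agent.X65.RW (minv minv_le minv_mem)

/-- tables -/
abbrev Tb : Type := List ((ℕ × ℕ × ℕ) × ℕ)

/-- reading an entry -/
def look (M : ℕ) (t : Tb) (q : ℕ × ℕ × ℕ) : ℕ :=
  (((t.filter fun e => decide (e.1 = q)).map fun e => e.2).head?).getD M

/-- the keys: vertex, labels received from outside, colour -/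
def keys (n M : ℕ) : List (ℕ × ℕ × ℕ) := (List.range n) ×ˢ ((List.range M) ×ˢ (List.range M))

/-- the possible values when the child `v` is merged into `p` -/
def opts (M : ℕ) (t : Tb) (v p x c : ℕ) : List ℕ :=
  (((List.range M) ×ˢ (List.range M)).filter fun y => decide (1 ≤ y.1) && !decide (y.2 = c)).map
    fun y => look M t (p, x + y.1, c) + y.1 + look M t (v, y.1, y.2)

/-- merging a child -/
def nxt (n M : ℕ) (t : Tb) (e : ℕ × ℕ) : Tb :=
  (keys n M).map fun q => (q, if q.1 = e.2 then minv M (opts M t e.1 e.2 q.2.1 q.2.2)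
    else look M t q)

/-- the first table -/
def ini (n M : ℕ) : Tb := (keys n M).map fun q => (q, if q.2.1 = q.2.2 then 0 else M)

/-- the last table -/
def fin (n M : ℕ) (es : List (ℕ × ℕ)) : Tb := es.foldl (nxt n M) (ini n M)

/-- the optimum -/
def ans (n M : ℕ) (es : List (ℕ × ℕ)) : ℕ :=
  minv M ((List.range M).map fun c => look M (fin n M es) (0, 0, c))

/-- building sequences of trees with root `0` -/
def Bl (n : ℕ) : List (ℕ × ℕ) → Prop
  | [] => True
  | e :: es => Bl n es ∧ e.1 < n ∧ e.1 ∉ 0 :: es.map Prod.fst ∧ e.2 ∈ 0 :: es.map Prod.fst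

/-- the sum of the labels at `u` -/
def X (lam : ℕ → ℕ) (x0 : ℕ) (es : List (ℕ × ℕ)) (u : ℕ) : ℕ :=
  (if u = 0 then x0 else lam u) + (es.map fun e => if e.2 = u then lam e.1 else 0).sum

theorem X_cons (lam : ℕ → ℕ) (x0 : ℕ) (e : ℕ × ℕ) (es : List (ℕ × ℕ)) (u : ℕ) :
    X lam x0 (e :: es) u = X lam x0 es u + if e.2 = u then lam e.1 else 0 := by
  unfold X
  rw [List.map_cons, List.sum_cons]
  omega

theorem look_map {K : List (ℕ × ℕ × ℕ)} {g : ℕ × ℕ × ℕ → ℕ} {q : ℕ × ℕ × ℕ} (M : ℕ) (h : q ∈ K) :
    look M (K.map fun q => (q, g q)) q = g q := by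
  unfold look
  induction K with
  | nil => simp at h
  | cons a K ih =>
    rw [List.map_cons, List.filter_cons]
    by_cases haq : a = q
    · subst haq
      simp
    · have h' : q ∈ K := by
        rcases List.mem_cons.1 h with h | h
        · exact absurd h.symm haq
        · exact h
      simp only [haq, decide_false]
      exact ih h'

theorem look_map_not {K : List (ℕ × ℕ × ℕ)} {g : ℕ × ℕ × ℕ → ℕ} {q : ℕ × ℕ × ℕ} (M : ℕ)
    (h : q ∉ K) : look M (K.map fun q => (q, g q)) q = M := by
  unfold look
  induction K with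
  | nil => rfl
  | cons a K ih =>
    rw [List.mem_cons, not_or] at h
    rw [List.map_cons, List.filter_cons]
    have haq : ¬ a = q := fun h' => h.1 h'.symm
    simp only [haq, decide_false]
    exact ih h.2

theorem mem_keys {n M u x c : ℕ} : (u, x, c) ∈ keys n M ↔ u < n ∧ x < M ∧ c < M := by
  unfold keys
  rw [List.mem_product, List.mem_product, List.mem_range, List.mem_range, List.mem_range]

theorem mem_opts {M v p x c a : ℕ} {t : Tb} : a ∈ opts M t v p x c ↔
    ∃ l d, l < M ∧ d < M ∧ 1 ≤ l ∧ d ≠ c ∧ look M t (p, x + l, c) + l + look M t (v, l, d) = a := by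
  unfold opts
  rw [List.mem_map]
  constructor
  · rintro ⟨⟨l, d⟩, h1, h2⟩
    rw [List.mem_filter, List.mem_product, List.mem_range, List.mem_range, Bool.and_eq_true,
      decide_eq_true_eq, Bool.not_eq_true', decide_eq_false_iff_not] at h1
    exact ⟨l, d, h1.1.1, h1.1.2, h1.2.1, h1.2.2, h2⟩
  · rintro ⟨l, d, h1, h2, h3, h4, h5⟩
    refine ⟨(l, d), ?_, h5⟩
    rw [List.mem_filter, List.mem_product, List.mem_range, List.mem_range, Bool.and_eq_true,
      decide_eq_true_eq, Bool.not_eq_true', decide_eq_false_iff_not]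
    exact ⟨⟨h1, h2⟩, h3, h4⟩

theorem Bl.lt {n : ℕ} (hn : 0 < n) : ∀ {es : List (ℕ × ℕ)}, Bl n es →
    ∀ u ∈ 0 :: es.map Prod.fst, u < n
  | [], _, u, hu => by
    simp at hu
    omega
  | e :: es, h, u, hu => by
    rw [List.map_cons, List.mem_cons, List.mem_cons] at hu
    rcases hu with hu | hu | hu
    · omega
    · rw [hu]; exact h.2.1
    · exact Bl.lt hn h.1 u (List.mem_cons_of_mem _ hu)

theorem Bl.nodup {n : ℕ} : ∀ {es : List (ℕ × ℕ)}, Bl n es → (0 :: es.map Prod.fst).Nodup
  | [], _ => by simp
  | e :: es, h => by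
    have ih := Bl.nodup h.1
    rw [List.nodup_cons] at ih
    have h1 := h.2.2.1
    rw [List.mem_cons, not_or] at h1
    rw [List.map_cons, List.nodup_cons, List.nodup_cons, List.mem_cons, not_or]
    exact ⟨⟨fun h => h1.1 h.symm, ih.1⟩, h1.2, ih.2⟩

theorem Bl.par {n : ℕ} : ∀ {es : List (ℕ × ℕ)}, Bl n es → ∀ e ∈ es, e.2 ∈ 0 :: es.map Prod.fst
  | [], _, e, he => by simp at he
  | e' :: es, h, e, he => by
    rw [List.map_cons, List.mem_cons, List.mem_cons]
    rcases List.mem_cons.1 he with he | he
    · rw [he]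
      have := h.2.2.2
      rw [List.mem_cons] at this
      rcases this with h1 | h1
      · exact Or.inl h1
      · exact Or.inr (Or.inr h1)
    · have := Bl.par h.1 e he
      rw [List.mem_cons] at this
      rcases this with h1 | h1
      · exact Or.inl h1
      · exact Or.inr (Or.inr h1)

theorem X_new {n : ℕ} {e : ℕ × ℕ} {es : List (ℕ × ℕ)} (h : Bl n (e :: es)) (lam : ℕ → ℕ) (x0 : ℕ) :
    X lam x0 (e :: es) e.1 = lam e.1 := by
  have h1 := h.2.2.1
  rw [X_cons]
  have h2 : e.2 ≠ e.1 := by
    intro h3
    rw [← h3] at h1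
    exact h1 h.2.2.2
  rw [if_neg h2]
  unfold X
  have h3 : e.1 ≠ 0 := by
    intro h3
    rw [h3] at h1
    exact h1 List.mem_cons_self
  rw [if_neg h3]
  have h4 : (es.map fun e' => if e'.2 = e.1 then lam e'.1 else 0).sum = 0 := by
    rw [List.sum_eq_zero]
    intro a ha
    rw [List.mem_map] at ha
    obtain ⟨e', he', rfl⟩ := ha
    rw [if_neg]
    intro h5
    have := Bl.par h.1 e' he'
    rw [h5] at this
    exact h1 this
  omega

theorem sum_upd {L : List ℕ} (hL : L.Nodup) {p : ℕ} (hp : p ∈ L) {f f' : ℕ → ℕ}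
    (h : ∀ u ∈ L, u ≠ p → f' u = f u) : (L.map f').sum + f p = (L.map f).sum + f' p := by
  induction L with
  | nil => simp at hp
  | cons a L ih =>
    rw [List.nodup_cons] at hL
    rw [List.map_cons, List.map_cons, List.sum_cons, List.sum_cons]
    by_cases hap : a = p
    · subst hap
      have h1 : L.map f' = L.map f := by
        refine List.map_congr_left fun u hu => h u (List.mem_cons_of_mem _ hu) ?_
        rintro rfl
        exact hL.1 hu
      rw [h1]
      omega
    · have hp' : p ∈ L := by
        rcases List.mem_cons.1 hp with h1 | h1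
        · exact absurd h1.symm hap
        · exact h1
      have ih' := ih hL.2 hp' (fun u hu => h u (List.mem_cons_of_mem _ hu))
      have h1 := h a List.mem_cons_self hap
      omega

theorem fold_le {n M : ℕ} (hn : 0 < n) (x0 : ℕ) (lam C : ℕ → ℕ) :
    ∀ (es : List (ℕ × ℕ)) (t : Tb), Bl n es → (∀ e ∈ es, 1 ≤ lam e.1 ∧ C e.1 ≠ C e.2) →
      (∀ u ∈ 0 :: es.map Prod.fst, C u < M ∧ X lam x0 es u < M) →
      look M (es.foldl (nxt n M) t) (0, x0, C 0) ≤ (es.map fun e => lam e.1).sum +
        ((0 :: es.map Prod.fst).map fun u => look M t (u, X lam x0 es u, C u)).sum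
  | [], t, _, _, _ => by
    unfold X
    simp
  | e :: es, t, hb, hc, hm => by
    have hsub : ∀ u ∈ 0 :: es.map Prod.fst, u ∈ 0 :: (e :: es).map Prod.fst := by
      intro u hu
      rw [List.mem_cons] at hu
      rw [List.map_cons, List.mem_cons, List.mem_cons]
      rcases hu with h | h
      · exact Or.inl h
      · exact Or.inr (Or.inr h)
    have hX : ∀ u, X lam x0 (e :: es) u = X lam x0 es u + if e.2 = u then lam e.1 else 0 :=
      fun u => X_cons _ _ _ _ _
    have ih := fold_le hn x0 lam C es (nxt n M t e) hb.1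
      (fun e' he' => hc e' (List.mem_cons_of_mem _ he')) (fun u hu => by
        have h1 := hm u (hsub u hu)
        rw [hX] at h1
        exact ⟨h1.1, by omega⟩)
    rw [List.foldl_cons]
    refine ih.trans ?_
    have hv := hm e.1 (by simp)
    rw [X_new hb] at hv
    obtain ⟨hc1, hc2⟩ := hc e List.mem_cons_self
    have hloo : ∀ u ∈ 0 :: es.map Prod.fst, look M (nxt n M t e) (u, X lam x0 es u, C u) =
        if u = e.2 then minv M (opts M t e.1 e.2 (X lam x0 es u) (C u))
          else look M t (u, X lam x0 es u, C u) := by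
      intro u hu
      have h1 := hm u (hsub u hu)
      rw [hX] at h1
      have h2 : (u, X lam x0 es u, C u) ∈ keys n M :=
        mem_keys.2 ⟨Bl.lt hn hb.1 u hu, by omega, h1.1⟩
      unfold nxt
      rw [look_map (g := fun q => if q.1 = e.2 then minv M (opts M t e.1 e.2 q.2.1 q.2.2)
        else look M t q) M h2]
    have hsum := sum_upd (Bl.nodup hb.1) hb.2.2.2
      (f := fun u => look M t (u, X lam x0 (e :: es) u, C u))
      (f' := fun u => look M (nxt n M t e) (u, X lam x0 es u, C u)) (by
        intro u hu hup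
        rw [hloo u hu, if_neg hup, hX, if_neg (fun h => hup h.symm), Nat.add_zero])
    have hp : look M (nxt n M t e) (e.2, X lam x0 es e.2, C e.2) ≤
        look M t (e.2, X lam x0 (e :: es) e.2, C e.2) + lam e.1 + look M t (e.1, lam e.1, C e.1) := by
      rw [hloo _ hb.2.2.2, if_pos rfl, hX, if_pos rfl]
      exact minv_le (mem_opts.2 ⟨lam e.1, C e.1, hv.2, hv.1, hc1, hc2, rfl⟩)
    simp only [List.map_cons, List.sum_cons] at hsum ⊢
    rw [X_new hb]
    omega

theorem exists_fold {n M : ℕ} (x0 c0 : ℕ) :
    ∀ (es : List (ℕ × ℕ)) (t : Tb), Bl n es → look M (es.foldl (nxt n M) t) (0, x0, c0) < M →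
      ∃ lam C : ℕ → ℕ, C 0 = c0 ∧ (∀ e ∈ es, 1 ≤ lam e.1 ∧ C e.1 ≠ C e.2) ∧
        (es.map fun e => lam e.1).sum +
        ((0 :: es.map Prod.fst).map fun u => look M t (u, X lam x0 es u, C u)).sum =
        look M (es.foldl (nxt n M) t) (0, x0, c0)
  | [], t, _, _ => ⟨fun _ => 0, fun _ => c0, rfl, by simp, by unfold X; simp⟩
  | e :: es, t, hb, hlt => by
    rw [List.foldl_cons] at hlt ⊢
    obtain ⟨lam, C, h1, h2, h3⟩ := exists_fold x0 c0 es (nxt n M t e) hb.1 hlt
    have hpm := hb.2.2.2
    have hvm := hb.2.2.1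
    have hple : look M (nxt n M t e) (e.2, X lam x0 es e.2, C e.2) < M := by
      have h4 : look M (nxt n M t e) (e.2, X lam x0 es e.2, C e.2) ≤
          ((0 :: es.map Prod.fst).map fun u =>
            look M (nxt n M t e) (u, X lam x0 es u, C u)).sum :=
        Pool.Agent.X65.RW.mem_le_sum (List.mem_map.2 ⟨e.2, hpm, rfl⟩)
      omega
    have hkey : (e.2, X lam x0 es e.2, C e.2) ∈ keys n M := by
      by_contra hk
      unfold nxt at hple
      rw [look_map_not M hk] at hple
      omega
    have hval : look M (nxt n M t e) (e.2, X lam x0 es e.2, C e.2) =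
        minv M (opts M t e.1 e.2 (X lam x0 es e.2) (C e.2)) := by
      unfold nxt
      rw [look_map (g := fun q => if q.1 = e.2 then minv M (opts M t e.1 e.2 q.2.1 q.2.2)
        else look M t q) M hkey]
      exact if_pos rfl
    rcases minv_mem M (opts M t e.1 e.2 (X lam x0 es e.2) (C e.2)) with hm | hm
    · obtain ⟨l, d, g1, g2, g3, g4, g5⟩ := mem_opts.1 hm
      have hne : ∀ u ∈ 0 :: es.map Prod.fst, u ≠ e.1 := by
        rintro u hu rfl
        exact hvm hu
      have hlam : ∀ u ∈ 0 :: es.map Prod.fst, Function.update lam e.1 l u = lam u := fun u hu =>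
        Function.update_of_ne (hne u hu) _ _
      have hC : ∀ u ∈ 0 :: es.map Prod.fst, Function.update C e.1 d u = C u := fun u hu =>
        Function.update_of_ne (hne u hu) _ _
      have hch : ∀ e' ∈ es, e'.1 ∈ 0 :: es.map Prod.fst := fun e' he' =>
        List.mem_cons_of_mem _ (List.mem_map.2 ⟨e', he', rfl⟩)
      have hX : ∀ u ∈ 0 :: es.map Prod.fst, X (Function.update lam e.1 l) x0 (e :: es) u =
          X lam x0 es u + if e.2 = u then l else 0 := by
        intro u hu
        rw [X_cons, Function.update_self]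
        congr 1
        unfold X
        rw [hlam u hu]
        congr 2
        refine List.map_congr_left fun e' he' => ?_
        rw [hlam _ (hch e' he')]
      refine ⟨Function.update lam e.1 l, Function.update C e.1 d, ?_, ?_, ?_⟩
      · rw [hC 0 List.mem_cons_self, h1]
      · intro e' he'
        rcases List.mem_cons.1 he' with he | he
        · rw [he, Function.update_self, Function.update_self, hC _ hpm]
          exact ⟨g3, g4⟩
        · rw [hlam _ (hch e' he), hC _ (hch e' he), hC _ (Bl.par hb.1 e' he)]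
          exact h2 e' he
      · have hsum := sum_upd (Bl.nodup hb.1) hpm
          (f := fun u => look M t (u, X (Function.update lam e.1 l) x0 (e :: es) u,
            Function.update C e.1 d u))
          (f' := fun u => look M (nxt n M t e) (u, X lam x0 es u, C u)) (by
            intro u hu hup
            rw [hC u hu, hX u hu, if_neg (fun h => hup h.symm), Nat.add_zero]
            by_cases hk : (u, X lam x0 es u, C u) ∈ keys n M
            · unfold nxt
              rw [look_map (g := fun q => if q.1 = e.2 then minv M (opts M t e.1 e.2 q.2.1 q.2.2)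
                else look M t q) M hk]
              simp only
              rw [if_neg hup]
            · exfalso
              have h4 : look M (nxt n M t e) (u, X lam x0 es u, C u) ≤
                  ((0 :: es.map Prod.fst).map fun u =>
                    look M (nxt n M t e) (u, X lam x0 es u, C u)).sum :=
                Pool.Agent.X65.RW.mem_le_sum (List.mem_map.2 ⟨u, hu, rfl⟩)
              have h5 : look M (nxt n M t e) (u, X lam x0 es u, C u) = M := by
                unfold nxt
                exact look_map_not M hk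
              omega)
        rw [hval, ← g5, hC _ hpm, hX _ hpm, if_pos rfl] at hsum
        have hs1 : (es.map fun e' => Function.update lam e.1 l e'.1) =
            es.map fun e' => lam e'.1 :=
          List.map_congr_left fun e' he' => hlam _ (hch e' he')
        rw [← h3]
        simp only [List.map_cons, List.sum_cons] at hsum ⊢
        rw [hs1, X_new hb, Function.update_self, Function.update_self]
        omega
    · exfalso
      omega

/-- all constraints of a labelling of the tree -/
def Good (es : List (ℕ × ℕ)) (lam : ℕ → ℕ) : Prop :=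
  ∀ e ∈ es, 1 ≤ lam e.1 ∧ X lam 0 es e.1 ≠ X lam 0 es e.2

theorem X_le_sum {n : ℕ} (lam : ℕ → ℕ) : ∀ {es : List (ℕ × ℕ)}, Bl n es →
    ∀ u ∈ 0 :: es.map Prod.fst, X lam 0 es u ≤ (es.map fun e => lam e.1).sum
  | [], _, u, hu => by
    simp at hu
    rw [hu]
    unfold X
    simp
  | e :: es, h, u, hu => by
    rw [List.map_cons, List.sum_cons]
    by_cases hue : u = e.1
    · rw [hue, X_new h]
      omega
    · have hu' : u ∈ 0 :: es.map Prod.fst := by
        rw [List.map_cons, List.mem_cons, List.mem_cons] at hu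
        rw [List.mem_cons]
        rcases hu with h | h | h
        · exact Or.inl h
        · exact absurd h hue
        · exact Or.inr h
      have ih := X_le_sum lam h.1 u hu'
      rw [X_cons]
      split_ifs <;> omega

theorem minv_le_bound (M : ℕ) (l : List ℕ) : minv M l ≤ M := by
  rcases minv_mem M l with h | h
  · by_contra hlt
    have h1 : minv M l = M ∨ minv M l < M := by
      unfold minv
      rw [List.head?_filter]
      cases hf : (List.range M).find? (fun v => decide (v ∈ l)) with
      | none => simp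
      | some i =>
        rw [List.find?_range_eq_some] at hf
        rw [Option.getD_some]
        right
        exact List.mem_range.1 hf.2.1
    omega
  · omega

theorem ans_le {n M : ℕ} (hn : 0 < n) {es : List (ℕ × ℕ)} (hb : Bl n es) {lam : ℕ → ℕ}
    (hg : Good es lam) : ans n M es ≤ (es.map fun e => lam e.1).sum := by
  by_cases hM : (es.map fun e => lam e.1).sum < M
  · have hX : ∀ u ∈ 0 :: es.map Prod.fst, X lam 0 es u < M := fun u hu =>
      (X_le_sum lam hb u hu).trans_lt hM
    have h1 := fold_le (M := M) hn 0 lam (fun u => X lam 0 es u) es (ini n M) hb hg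
      (fun u hu => ⟨hX u hu, hX u hu⟩)
    unfold ans
    refine (minv_le (List.mem_map.2 ⟨X lam 0 es 0, List.mem_range.2
      (hX 0 List.mem_cons_self), rfl⟩)).trans (h1.trans ?_)
    have h2 : ((0 :: es.map Prod.fst).map fun u =>
        look M (ini n M) (u, X lam 0 es u, X lam 0 es u)).sum = 0 := by
      rw [List.sum_eq_zero]
      intro a ha
      rw [List.mem_map] at ha
      obtain ⟨u, hu, rfl⟩ := ha
      unfold ini
      rw [look_map (g := fun q => if q.2.1 = q.2.2 then 0 else M) M
        (mem_keys.2 ⟨Bl.lt hn hb u hu, hX u hu, hX u hu⟩)]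
      simp
    rw [h2]
    omega
  · exact (minv_le_bound _ _).trans (not_lt.1 hM)

theorem exists_ans {n M : ℕ} {es : List (ℕ × ℕ)} (hb : Bl n es) (h : ans n M es < M) :
    ∃ lam : ℕ → ℕ, Good es lam ∧ (es.map fun e => lam e.1).sum = ans n M es := by
  have hm : ans n M es ∈ ((List.range M).map fun c => look M (fin n M es) (0, 0, c)) := by
    rcases minv_mem M ((List.range M).map fun c => look M (fin n M es) (0, 0, c)) with h1 | h1
    · exact h1
    · unfold ans at h
      omega
  rw [List.mem_map] at hm
  obtain ⟨c, _, hc⟩ := hm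
  unfold fin at hc
  rw [← hc] at h
  obtain ⟨lam, C, h1, h2, h3⟩ := exists_fold 0 c es (ini n M) hb h
  rw [hc] at h3 h
  have hz : ∀ u ∈ 0 :: es.map Prod.fst, C u = X lam 0 es u ∧
      look M (ini n M) (u, X lam 0 es u, C u) = 0 := by
    intro u hu
    have h4 : look M (ini n M) (u, X lam 0 es u, C u) ≤ ((0 :: es.map Prod.fst).map fun u =>
        look M (ini n M) (u, X lam 0 es u, C u)).sum :=
      Pool.Agent.X65.RW.mem_le_sum (List.mem_map.2 ⟨u, hu, rfl⟩)
    have h5 : look M (ini n M) (u, X lam 0 es u, C u) < M := by omega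
    by_cases hk : (u, X lam 0 es u, C u) ∈ keys n M
    · unfold ini at h5 ⊢
      rw [look_map (g := fun q => if q.2.1 = q.2.2 then 0 else M) M hk] at h5 ⊢
      simp only at h5 ⊢
      split_ifs at h5 ⊢ with h6
      · exact ⟨h6.symm, rfl⟩
      · omega
    · unfold ini at h5
      rw [look_map_not M hk] at h5
      omega
  have hz0 : ((0 :: es.map Prod.fst).map fun u =>
      look M (ini n M) (u, X lam 0 es u, C u)).sum = 0 := by
    rw [List.sum_eq_zero]
    intro a ha
    rw [List.mem_map] at ha
    obtain ⟨u, hu, rfl⟩ := ha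
    exact (hz u hu).2
  refine ⟨lam, ?_, by omega⟩
  intro e he
  obtain ⟨g1, g2⟩ := h2 e he
  refine ⟨g1, ?_⟩
  rw [(hz e.1 (List.mem_cons_of_mem _ (List.mem_map.2 ⟨e, he, rfl⟩))).1,
    (hz e.2 (Bl.par hb e he)).1] at g2
  exact g2

/-! ### A small labelling -/

theorem Bl.root {n : ℕ} : ∀ {es : List (ℕ × ℕ)}, Bl n es → es ≠ [] → ∃ e ∈ es, e.2 = 0
  | [], _, h => absurd rfl h
  | e :: es, hb, _ => by
    by_cases hes : es = []
    · have := hb.2.2.2
      rw [hes] at this
      simp at this
      exact ⟨e, List.mem_cons_self, this⟩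
    · obtain ⟨e', he', h⟩ := Bl.root hb.1 hes
      exact ⟨e', List.mem_cons_of_mem _ he', h⟩

theorem X_pos {n : ℕ} {lam : ℕ → ℕ} {es : List (ℕ × ℕ)} (hb : Bl n es) (hes : es ≠ [])
    (hl : ∀ e ∈ es, 1 ≤ lam e.1) : ∀ u ∈ 0 :: es.map Prod.fst, 1 ≤ X lam 0 es u := by
  intro u hu
  by_cases hu0 : u = 0
  · obtain ⟨e, he, h0⟩ := Bl.root hb hes
    have h1 : (if e.2 = u then lam e.1 else 0) ≤
        (es.map fun e => if e.2 = u then lam e.1 else 0).sum :=
      Pool.Agent.X65.RW.mem_le_sum (List.mem_map.2 ⟨e, he, rfl⟩)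
    rw [if_pos (by rw [h0, hu0])] at h1
    have := hl e he
    unfold X
    omega
  · rw [List.mem_cons] at hu
    have h1 := hu.resolve_left hu0
    rw [List.mem_map] at h1
    obtain ⟨e, he, rfl⟩ := h1
    have := hl e he
    unfold X
    rw [if_neg hu0]
    omega

theorem exists_small {n : ℕ} : ∀ {es : List (ℕ × ℕ)}, Bl n es → 2 ≤ es.length →
    ∃ lam : ℕ → ℕ, Good es lam ∧ ∀ e ∈ es, lam e.1 ≤ es.length + 1
  | [], _, h => by simp at h
  | [_], _, h => by simp at h
  | [e, f], hb, _ => by
    refine ⟨fun _ => 1, ?_, fun _ _ => by simp⟩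
    obtain ⟨⟨_, _, h3, h4⟩, _, h6, h7⟩ := hb
    simp only [List.map_nil, List.mem_cons, List.not_mem_nil, or_false, List.map_cons, not_or]
      at h3 h4 h6 h7
    intro g hg
    refine ⟨le_rfl, ?_⟩
    simp only [List.mem_cons, List.not_mem_nil, or_false] at hg
    unfold X
    simp only [List.map_cons, List.map_nil, List.sum_cons, List.sum_nil]
    rcases hg with rfl | rfl
    · rcases h7 with h7 | h7
      · rw [h7, h4]
        simp [h6.1, h3, Ne.symm h6.1]
      · rw [h7, h4]
        simp [h6.1, h3, Ne.symm h6.1, Ne.symm h3, Ne.symm h6.2]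
    · rcases h7 with h7 | h7
      · rw [h7, h4]
        simp [h6.1, h3, Ne.symm h3]
      · rw [h7, h4]
        simp [h6.1, h3, Ne.symm h6.1, Ne.symm h3]
  | e :: e1 :: e2 :: es, hb, _ => by
    obtain ⟨lam, hg, hle⟩ := exists_small (es := e1 :: e2 :: es) hb.1 (by simp)
    generalize hes : e1 :: e2 :: es = fs at hb hg hle ⊢
    have hfs : fs ≠ [] := by rw [← hes]; simp
    obtain ⟨l, hl1, hl2⟩ := Finset.exists_mem_notMem_of_card_lt_card
      (s := (fs.map fun g => (if g.2 = e.2 then X lam 0 fs g.1 else X lam 0 fs g.2) -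
        X lam 0 fs e.2).toFinset) (t := Finset.Icc 1 (fs.length + 1)) (by
          refine lt_of_le_of_lt (List.toFinset_card_le _) ?_
          rw [List.length_map, Nat.card_Icc]
          omega)
    rw [Finset.mem_Icc] at hl1
    rw [List.mem_toFinset, List.mem_map] at hl2
    push Not at hl2
    have hpm := hb.2.2.2
    have hvm := hb.2.2.1
    have hne : ∀ u ∈ 0 :: fs.map Prod.fst, u ≠ e.1 := by
      rintro u hu rfl
      exact hvm hu
    have hlam : ∀ u ∈ 0 :: fs.map Prod.fst, Function.update lam e.1 l u = lam u := fun u hu =>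
      Function.update_of_ne (hne u hu) _ _
    have hch : ∀ e' ∈ fs, e'.1 ∈ 0 :: fs.map Prod.fst := fun e' he' =>
      List.mem_cons_of_mem _ (List.mem_map.2 ⟨e', he', rfl⟩)
    have hX : ∀ u ∈ 0 :: fs.map Prod.fst, X (Function.update lam e.1 l) 0 (e :: fs) u =
        X lam 0 fs u + if e.2 = u then l else 0 := by
      intro u hu
      rw [X_cons, Function.update_self]
      congr 1
      unfold X
      rw [hlam u hu]
      congr 2
      refine List.map_congr_left fun e' he' => ?_
      rw [hlam _ (hch e' he')]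
    have hpos := X_pos hb.1 hfs (fun g hg' => (hg g hg').1) e.2 hpm
    refine ⟨Function.update lam e.1 l, ?_, ?_⟩
    · intro g hg'
      rcases List.mem_cons.1 hg' with h | h
      · rw [h, Function.update_self, X_new hb, Function.update_self, hX _ hpm, if_pos rfl]
        exact ⟨hl1.1, by omega⟩
      · rw [hlam _ (hch g h), hX _ (hch g h), hX _ (Bl.par hb.1 g h)]
        obtain ⟨g1, g2⟩ := hg g h
        refine ⟨g1, ?_⟩
        have h3 := hl2 g h
        by_cases ha : e.2 = g.1
        · have hb' : e.2 ≠ g.2 := by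
            intro hb'
            rw [← ha, ← hb'] at g2
            exact g2 rfl
          rw [if_pos ha, if_neg hb']
          rw [if_neg (fun h => hb' h.symm)] at h3
          rw [ha] at h3
          omega
        · rw [if_neg ha]
          by_cases hb' : e.2 = g.2
          · rw [if_pos hb']
            rw [if_pos hb'.symm] at h3
            rw [hb'] at h3
            omega
          · rw [if_neg hb']
            simpa using g2
    · intro g hg'
      rcases List.mem_cons.1 hg' with h | h
      · rw [h, Function.update_self, List.length_cons]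
        omega
      · rw [hlam _ (hch g h), List.length_cons]
        have := hle g h
        omega

theorem ans_lt {n M : ℕ} (hn : 0 < n) {es : List (ℕ × ℕ)} (hb : Bl n es) (hl : es.length ≠ 1)
    (hM : es.length * (es.length + 1) < M) : ans n M es < M := by
  by_cases h0 : es = []
  · have hg : Good es (fun _ => 0) := by
      rw [h0]
      intro e he
      simp at he
    have := ans_le (M := M) hn hb hg
    rw [h0] at this hM ⊢
    simp at this hM
    omega
  · have hlen : 2 ≤ es.length := by
      have : es.length ≠ 0 := fun h => h0 (List.eq_nil_of_length_eq_zero h)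
      omega
    obtain ⟨lam, h1, h2⟩ := exists_small hb hlen
    refine (ans_le hn hb h1).trans_lt (lt_of_le_of_lt ?_ hM)
    have h3 : ∀ a ∈ es.map fun e => lam e.1, a ≤ es.length + 1 := by
      intro a ha
      obtain ⟨e, he, rfl⟩ := List.mem_map.1 ha
      exact h2 e he
    have h4 := List.sum_le_card_nsmul _ _ h3
    simpa using h4

end Pool.Agent.X65.MS
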